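import Mathlib

set_option autoImplicit false

namespace Run7.h445.Lech

open Polynomial

/-- The linear functional `X ^ l ↦ ε l` on `ℕ[X]`. -/
noncomputable def Phi (ε : ℕ → ℕ∞) (p : ℕ[X]) : ℕ∞ :=
  ∑ a ∈ Finset.range (p.natDegree + 1), (p.coeff a : ℕ∞) * ε a

lemma Phi_eq_sum (ε : ℕ → ℕ∞) (p : ℕ[X]) (N : ℕ) (h : p.natDegree < N) :
    Phi ε p = ∑ a ∈ Finset.range N, (p.coeff a : ℕ∞) * ε a := by
  unfold Phi
  refine Finset.sum_subset ?_ ?_
  · intro a ha
    rw [Finset.mem_range] at ha ⊢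
    omega
  · intro a _ ha
    rw [Finset.mem_range, not_lt] at ha
    rw [Polynomial.coeff_eq_zero_of_natDegree_lt (by omega)]
    simp

lemma Phi_add (ε : ℕ → ℕ∞) (p q : ℕ[X]) : Phi ε (p + q) = Phi ε p + Phi ε q := by
  have h1 := Polynomial.natDegree_add_le p q
  set N := max p.natDegree q.natDegree + 1 with hN
  rw [Phi_eq_sum ε (p + q) N (by omega), Phi_eq_sum ε p N (by omega), Phi_eq_sum ε q N (by omega),
    ← Finset.sum_add_distrib]
  refine Finset.sum_congr rfl fun a _ => ?_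
  rw [Polynomial.coeff_add, Nat.cast_add, add_mul]

lemma Phi_zero (ε : ℕ → ℕ∞) : Phi ε 0 = 0 := by simp [Phi]

lemma Phi_sum {ι : Type*} (ε : ℕ → ℕ∞) (s : Finset ι) (p : ι → ℕ[X]) :
    Phi ε (∑ i ∈ s, p i) = ∑ i ∈ s, Phi ε (p i) := by
  classical
  induction s using Finset.induction with
  | empty => simp [Phi_zero]
  | insert a s ha ih => rw [Finset.sum_insert ha, Finset.sum_insert ha, Phi_add, ih]

lemma Phi_C_mul (ε : ℕ → ℕ∞) (c : ℕ) (p : ℕ[X]) : Phi ε (C c * p) = c * Phi ε p := by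
  have h1 := Polynomial.natDegree_C_mul_le c p
  rw [Phi_eq_sum ε (C c * p) (p.natDegree + 1) (by omega), Phi, Finset.mul_sum]
  refine Finset.sum_congr rfl fun a _ => ?_
  rw [Polynomial.coeff_C_mul, Nat.cast_mul, mul_assoc]

lemma Phi_X_pow (ε : ℕ → ℕ∞) (l : ℕ) : Phi ε (X ^ l) = ε l := by
  rw [Phi_eq_sum ε (X ^ l) (l + 1) (by
    have := Polynomial.natDegree_X_pow_le (R := ℕ) l
    omega)]
  rw [Finset.sum_eq_single l]
  · simp
  · intro b _ hb
    rw [Polynomial.coeff_X_pow]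
    simp [hb]
  · intro h
    exact absurd (Finset.mem_range.2 (Nat.lt_succ_self l)) h

/-- monotonicity -/
lemma Phi_le (ε ε' : ℕ → ℕ∞) (c : ℕ∞) (p : ℕ[X]) (m : ℕ) (hp : p.natDegree ≤ m)
    (h : ∀ a ≤ m, ε a ≤ c * ε' a) : Phi ε p ≤ c * Phi ε' p := by
  rw [Phi, Phi, Finset.mul_sum]
  refine Finset.sum_le_sum fun a ha => ?_
  rw [Finset.mem_range] at ha
  calc (p.coeff a : ℕ∞) * ε a ≤ (p.coeff a : ℕ∞) * (c * ε' a) := mul_le_mul_right (h a (by omega)) _
    _ = _ := by ring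

/-- the auxiliary polynomials -/
noncomputable def gpoly (a : ℕ) : ℕ[X] :=
  ∑ j ∈ Finset.range a, X ^ (j + 1) * (X + 1) ^ (a - 1 - j)

lemma gpoly_add (a : ℕ) : gpoly a + X * X ^ a = X * (X + 1) ^ a := by
  have h := geom_sum₂_mul_add (1 : ℕ[X]) X a
  rw [mul_one, add_comm (1 : ℕ[X]) X] at h
  rw [← h, mul_add]
  congr 1
  rw [gpoly, ← Finset.sum_range_reflect, Finset.mul_sum]
  refine Finset.sum_congr rfl fun j hj => ?_
  rw [Finset.mem_range] at hj
  have h1 : a - 1 - j + 1 = (a - 1 - j) + 1 := rfl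
  have h2 : a - 1 - (a - 1 - j) = j := by omega
  rw [h2, pow_succ]
  ring

lemma natCast_eq_C (m : ℕ) : (m : ℕ[X]) = C m := by
  rw [← Polynomial.C_eq_natCast, Nat.cast_id]

/-- The key identity for Stirling numbers. -/
lemma sum_gpoly (m : ℕ) :
    ∑ a ∈ Finset.range (m + 1), C ((ascPochhammer ℕ m).coeff a) * gpoly a =
      C m * ascPochhammer ℕ m := by
  have h1 : X * (ascPochhammer ℕ m).comp (X + 1) = ascPochhammer ℕ m * (X + (m : ℕ[X])) := by
    rw [← ascPochhammer_succ_left, ascPochhammer_succ_right]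
  have hdeg : (ascPochhammer ℕ m).natDegree < m + 1 := by
    rw [ascPochhammer_natDegree]; omega
  have h2 : ascPochhammer ℕ m =
      ∑ a ∈ Finset.range (m + 1), C ((ascPochhammer ℕ m).coeff a) * X ^ a :=
    Polynomial.as_sum_range_C_mul_X_pow' _ hdeg
  have h3 : (ascPochhammer ℕ m).comp (X + 1) =
      ∑ a ∈ Finset.range (m + 1), C ((ascPochhammer ℕ m).coeff a) * (X + 1) ^ a := by
    conv_lhs => rw [h2]
    rw [Polynomial.comp, Polynomial.eval₂_finsetSum]
    refine Finset.sum_congr rfl fun a _ => ?_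
    simp
  have h4 : ∑ a ∈ Finset.range (m + 1), C ((ascPochhammer ℕ m).coeff a) * gpoly a +
      X * ascPochhammer ℕ m = C m * ascPochhammer ℕ m + X * ascPochhammer ℕ m := by
    have e1 : C m * ascPochhammer ℕ m + X * ascPochhammer ℕ m =
        ascPochhammer ℕ m * (X + (m : ℕ[X])) := by
      rw [natCast_eq_C]
      ring
    rw [e1, ← h1, h3, Finset.mul_sum]
    conv_lhs =>
      rhs
      rw [h2, Finset.mul_sum]
    rw [← Finset.sum_add_distrib]
    refine Finset.sum_congr rfl fun a _ => ?_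
    have := gpoly_add a
    calc _ = C ((ascPochhammer ℕ m).coeff a) * (gpoly a + X * X ^ a) := by ring
      _ = _ := by rw [this]; ring
  ext n
  have h5 := congrArg (fun p => Polynomial.coeff p n) h4
  simp only [Polynomial.coeff_add] at h5
  omega

/-- The numerical heart of the induction. -/
theorem num (m T : ℕ) (e : ℕ → ℕ∞) (ε : ℕ → ℕ → ℕ∞) (c : ℕ∞)
    (ha : ∀ a ≤ m, e (a + 1) ≤ c * ∑ t ∈ Finset.range T, (ε t a + Phi (ε (t + 1)) (gpoly a)))
    (hb : ∀ a ≤ m, e a ≤ c * ε 0 a)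
    (hT : (m : ℕ∞) * Phi (ε T) (ascPochhammer ℕ m) = 0) :
    Phi e (ascPochhammer ℕ (m + 1)) ≤
      c * ((m + 1) * ∑ t ∈ Finset.range T, Phi (ε t) (ascPochhammer ℕ m)) := by
  set P := ascPochhammer ℕ m with hP
  have hdeg : P.natDegree < m + 1 := by
    rw [hP, ascPochhammer_natDegree]; omega
  have hsum : P = ∑ a ∈ Finset.range (m + 1), C (P.coeff a) * X ^ a :=
    Polynomial.as_sum_range_C_mul_X_pow' _ hdeg
  have h1 : ascPochhammer ℕ (m + 1) = X * P + C m * P := by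
    rw [ascPochhammer_succ_right, ← hP, natCast_eq_C]
    ring
  rw [h1, Phi_add, Phi_C_mul]
  -- first part
  have h2 : Phi e (X * P) ≤
      c * ∑ t ∈ Finset.range T, (Phi (ε t) P + m * Phi (ε (t + 1)) P) := by
    have e1 : X * P = ∑ a ∈ Finset.range (m + 1), C (P.coeff a) * X ^ (a + 1) := by
      conv_lhs => rw [hsum]
      rw [Finset.mul_sum]
      refine Finset.sum_congr rfl fun a _ => ?_
      ring
    rw [e1, Phi_sum]
    have e2 : ∀ a ∈ Finset.range (m + 1), Phi e (C (P.coeff a) * X ^ (a + 1)) ≤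
        c * ∑ t ∈ Finset.range T, ((P.coeff a : ℕ∞) * ε t a +
          Phi (ε (t + 1)) (C (P.coeff a) * gpoly a)) := by
      intro a hma
      rw [Finset.mem_range] at hma
      rw [Phi_C_mul, Phi_X_pow]
      refine (mul_le_mul_right (ha a (by omega)) _).trans (le_of_eq ?_)
      simp only [Phi_C_mul, Finset.mul_sum, mul_add]
      refine Finset.sum_congr rfl fun t _ => ?_
      ring
    refine (Finset.sum_le_sum e2).trans (le_of_eq ?_)
    rw [← Finset.mul_sum, Finset.sum_comm]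
    congr 1
    refine Finset.sum_congr rfl fun t _ => ?_
    rw [Finset.sum_add_distrib, ← Phi_sum, hP, sum_gpoly, Phi_C_mul, ← hP,
      ← Phi_eq_sum (ε t) P (m + 1) hdeg]
  have h3 : Phi e P ≤ c * Phi (ε 0) P := Phi_le e (ε 0) c P m (by omega) hb
  have h4 : ∑ t ∈ Finset.range T, (m : ℕ∞) * Phi (ε (t + 1)) P + m * Phi (ε 0) P =
      ∑ t ∈ Finset.range T, (m : ℕ∞) * Phi (ε t) P := by
    have := Finset.sum_range_succ' (fun t => (m : ℕ∞) * Phi (ε t) P) T
    rw [← this, Finset.sum_range_succ, hT, add_zero]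
  calc Phi e (X * P) + m * Phi e P
      ≤ c * ∑ t ∈ Finset.range T, (Phi (ε t) P + m * Phi (ε (t + 1)) P) +
          m * (c * Phi (ε 0) P) := add_le_add h2 (mul_le_mul_right h3 _)
    _ = c * (∑ t ∈ Finset.range T, Phi (ε t) P +
          (∑ t ∈ Finset.range T, (m : ℕ∞) * Phi (ε (t + 1)) P + m * Phi (ε 0) P)) := by
        rw [Finset.sum_add_distrib]; ring
    _ = c * ((m + 1) * ∑ t ∈ Finset.range T, Phi (ε t) P) := by
        rw [h4, ← Finset.mul_sum]; ring

end Run7.h445.Lech
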