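import Mathlib

set_option autoImplicit false

namespace Run7.h445.Lech

open Ideal

variable {R : Type*} [CommRing R]

/-- Colength of an ideal. -/
noncomputable def dm (J : Ideal R) : ℕ∞ := Module.length R (R ⧸ J)

lemma dm_anti {J K : Ideal R} (h : J ≤ K) : dm K ≤ dm J :=
  Module.length_le_of_surjective (Submodule.factor h) (Submodule.factor_surjective h)

/-- The colon ideal `(J : x)`. -/
def cln (J : Ideal R) (x : R) : Ideal R := Submodule.comap (LinearMap.mulRight R x) J

lemma mem_cln {J : Ideal R} {x r : R} : r ∈ cln J x ↔ r * x ∈ J := Iff.rfl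

lemma dm_eq_add (J : Ideal R) (x : R) : dm J = dm (cln J x) + dm (J ⊔ span {x}) := by
  unfold dm
  let f : (R ⧸ cln J x) →ₗ[R] (R ⧸ J) :=
    Submodule.mapQ (cln J x) J (LinearMap.mulRight R x) le_rfl
  let g : (R ⧸ J) →ₗ[R] (R ⧸ (J ⊔ span {x})) := Submodule.factor le_sup_left
  refine Module.length_eq_add_of_exact f g ?_ (Submodule.factor_surjective _) ?_
  · rw [injective_iff_map_eq_zero]
    intro a
    obtain ⟨r, rfl⟩ := Submodule.Quotient.mk_surjective _ a
    intro h
    rw [Submodule.Quotient.mk_eq_zero]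
    have : Submodule.Quotient.mk (p := J) (r * x) = 0 := h
    rwa [Submodule.Quotient.mk_eq_zero] at this
  · intro a
    obtain ⟨r, rfl⟩ := Submodule.Quotient.mk_surjective _ a
    constructor
    · intro h
      have h1 : Submodule.Quotient.mk (p := J ⊔ span {x}) r = 0 := h
      rw [Submodule.Quotient.mk_eq_zero] at h1
      obtain ⟨j, hj, y, hy, rfl⟩ := Submodule.mem_sup.1 h1
      obtain ⟨s, rfl⟩ := Ideal.mem_span_singleton'.1 hy
      refine ⟨Submodule.Quotient.mk s, ?_⟩
      show Submodule.Quotient.mk (p := J) (s * x) = Submodule.Quotient.mk (j + s * x)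
      rw [Submodule.Quotient.eq]
      simpa using hj
    · rintro ⟨b, hb⟩
      obtain ⟨s, rfl⟩ := Submodule.Quotient.mk_surjective _ b
      have hb' : Submodule.Quotient.mk (p := J) (s * x) = Submodule.Quotient.mk r := hb
      show Submodule.Quotient.mk (p := J ⊔ span {x}) r = 0
      rw [Submodule.Quotient.mk_eq_zero]
      rw [Submodule.Quotient.eq] at hb'
      have : r = -(s * x - r) + s * x := by ring
      rw [this]
      exact Submodule.add_mem_sup (neg_mem hb') (Ideal.mem_span_singleton'.2 ⟨s, rfl⟩)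

lemma dm_top : dm (⊤ : Ideal R) = 0 := by
  unfold dm
  exact Module.length_eq_zero

lemma dm_eq_zero_iff {J : Ideal R} : dm J = 0 ↔ J = ⊤ := by
  unfold dm
  rw [Module.length_eq_zero_iff]
  exact Ideal.Quotient.subsingleton_iff

/-- `ℓ(R/(Q+fg)) ≤ ℓ(R/(Q+f)) + ℓ(R/(Q+g))`. -/
lemma dm_mul_le (Q : Ideal R) (f g : R) :
    dm (Q ⊔ span {f * g}) ≤ dm (Q ⊔ span {f}) + dm (Q ⊔ span {g}) := by
  rw [dm_eq_add (Q ⊔ span {f * g}) f, add_comm]
  refine add_le_add (dm_anti ?_) (dm_anti ?_)
  · rw [sup_assoc]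
    exact sup_le_sup_left le_sup_right _
  · refine sup_le ?_ ?_
    · intro r hr
      rw [mem_cln]
      exact Ideal.mem_sup_left (Ideal.mul_mem_right _ _ hr)
    · rw [Ideal.span_singleton_le_iff_mem, mem_cln, mul_comm]
      exact Ideal.mem_sup_right (Ideal.mem_span_singleton_self _)

lemma dm_pow_mul_le (Q : Ideal R) (f g : R) (n : ℕ) :
    dm (Q ⊔ span {f ^ n * g}) ≤ n * dm (Q ⊔ span {f}) + dm (Q ⊔ span {g}) := by
  induction n with
  | zero => simp
  | succ n ih =>
    have h := dm_mul_le Q f (f ^ n * g)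
    have e : f * (f ^ n * g) = f ^ (n + 1) * g := by ring
    rw [e] at h
    refine h.trans ?_
    refine (add_le_add_right ih _).trans ?_
    push_cast
    rw [add_mul, one_mul, ← add_assoc, add_comm (dm (Q ⊔ span {f}))]

lemma enat_lt_add {a b : ℕ∞} (ha : a ≠ ⊤) (hb : b ≠ 0) : a < a + b := by
  lift a to ℕ using ha
  induction b using ENat.recTopCoe with
  | top => simp
  | coe b =>
    have : b ≠ 0 := by
      intro h
      exact hb (by simp [h])
    have h2 : a < a + b := by omega
    exact_mod_cast h2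

/-- strict monotonicity -/
lemma dm_lt {J K : Ideal R} (h : J < K) (hJ : dm J ≠ ⊤) : dm K < dm J := by
  obtain ⟨x, hxK, hxJ⟩ := Set.exists_of_ssubset h
  have h1 : dm K ≤ dm (J ⊔ span {x}) :=
    dm_anti (sup_le h.le ((Ideal.span_singleton_le_iff_mem _).2 hxK))
  have h2 := dm_eq_add J x
  have h3 : dm (cln J x) ≠ 0 := by
    rw [Ne, dm_eq_zero_iff]
    intro h4
    apply hxJ
    have : (1 : R) ∈ cln J x := by rw [h4]; trivial
    rw [mem_cln, one_mul] at this
    exact this
  have h5 : dm (J ⊔ span {x}) ≠ ⊤ := by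
    intro h6
    rw [h6] at h2
    exact hJ (by rw [h2]; simp)
  refine lt_of_le_of_lt h1 ?_
  rw [h2, add_comm]
  exact enat_lt_add h5 h3

lemma dm_eq_of_le {J K : Ideal R} (h : J ≤ K) (hJ : dm J ≠ ⊤) (hd : dm J ≤ dm K) : J = K := by
  by_contra hne
  exact absurd (dm_lt (lt_of_le_of_ne h hne) hJ) (not_lt.2 hd)

end Run7.h445.Lech
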