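import Mathlib

set_option autoImplicit false

namespace Run7.h445.Lech

section PolyMap

variable (k : Type*) [Field k] (σ : Type*) (V : Type*) [AddCommGroup V] [Module k V]

/-- Polynomial maps `k^σ → V`. -/
noncomputable def PolyMap : Submodule k ((σ → k) → V) :=
  Submodule.span k {v | ∃ (P : MvPolynomial σ k) (a : V), v = fun z => MvPolynomial.eval z P • a}

variable {k σ V}
variable {W : Type*} [AddCommGroup W] [Module k W]

lemma polyMap_basic (P : MvPolynomial σ k) (a : V) :
    (fun z => MvPolynomial.eval z P • a) ∈ PolyMap k σ V :=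
  Submodule.subset_span ⟨P, a, rfl⟩

lemma polyMap_const (a : V) : (fun _ : σ → k => a) ∈ PolyMap k σ V := by
  have := polyMap_basic (k := k) (σ := σ) 1 a
  simpa using this

lemma polyMap_add {v w : (σ → k) → V} (hv : v ∈ PolyMap k σ V) (hw : w ∈ PolyMap k σ V) :
    (fun z => v z + w z) ∈ PolyMap k σ V := Submodule.add_mem _ hv hw

lemma polyMap_sum {ι : Type*} (s : Finset ι) {v : ι → (σ → k) → V}
    (hv : ∀ i ∈ s, v i ∈ PolyMap k σ V) :
    (fun z => ∑ i ∈ s, v i z) ∈ PolyMap k σ V := by
  have := Submodule.sum_mem (PolyMap k σ V) hv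
  convert this using 1
  ext z
  simp

lemma polyMap_linear (φ : V →ₗ[k] W) {v : (σ → k) → V} (hv : v ∈ PolyMap k σ V) :
    (fun z => φ (v z)) ∈ PolyMap k σ W := by
  induction hv using Submodule.span_induction with
  | mem x hx =>
    obtain ⟨P, a, rfl⟩ := hx
    simpa using polyMap_basic P (φ a)
  | zero => simpa using polyMap_const (k := k) (σ := σ) (0 : W)
  | add x y _ _ hx hy => simpa using polyMap_add hx hy
  | smul c x _ hx =>
    have := Submodule.smul_mem (PolyMap k σ W) c hx
    convert this using 1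
    ext z
    simp

lemma polyMap_smul (P : MvPolynomial σ k) {v : (σ → k) → V} (hv : v ∈ PolyMap k σ V) :
    (fun z => MvPolynomial.eval z P • v z) ∈ PolyMap k σ V := by
  induction hv using Submodule.span_induction with
  | mem x hx =>
    obtain ⟨Q, a, rfl⟩ := hx
    have := polyMap_basic (P * Q) a
    simpa [mul_smul] using this
  | zero => simpa using polyMap_const (k := k) (σ := σ) (0 : V)
  | add x y _ _ hx hy => simpa [smul_add] using polyMap_add hx hy
  | smul c x _ hx =>
    have := Submodule.smul_mem (PolyMap k σ V) c hx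
    convert this using 1
    ext z
    simp [smul_comm c]

lemma polyMap_scalar {v : (σ → k) → k} (hv : v ∈ PolyMap k σ k) :
    ∃ P : MvPolynomial σ k, ∀ z, v z = MvPolynomial.eval z P := by
  induction hv using Submodule.span_induction with
  | mem x hx =>
    obtain ⟨Q, a, rfl⟩ := hx
    exact ⟨Q * MvPolynomial.C a, fun z => by simp⟩
  | zero => exact ⟨0, fun z => by simp⟩
  | add x y _ _ hx hy =>
    obtain ⟨P, hP⟩ := hx
    obtain ⟨Q, hQ⟩ := hy
    exact ⟨P + Q, fun z => by simp [hP, hQ]⟩
  | smul c x _ hx =>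
    obtain ⟨P, hP⟩ := hx
    exact ⟨MvPolynomial.C c * P, fun z => by simp [hP]⟩

variable {R : Type*} [CommRing R] [Algebra k R]

lemma polyMap_mul_const {v : (σ → k) → R} (hv : v ∈ PolyMap k σ R) (a : R) :
    (fun z => v z * a) ∈ PolyMap k σ R :=
  polyMap_linear (LinearMap.mulRight k a) hv

lemma polyMap_const_mul {v : (σ → k) → R} (hv : v ∈ PolyMap k σ R) (a : R) :
    (fun z => a * v z) ∈ PolyMap k σ R :=
  polyMap_linear (LinearMap.mulLeft k a) hv

lemma polyMap_mul {v w : (σ → k) → R} (hv : v ∈ PolyMap k σ R) (hw : w ∈ PolyMap k σ R) :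
    (fun z => v z * w z) ∈ PolyMap k σ R := by
  induction hv using Submodule.span_induction with
  | mem x hx =>
    obtain ⟨Q, a, rfl⟩ := hx
    have := polyMap_smul Q (polyMap_const_mul hw a)
    simpa using this
  | zero => simpa using polyMap_const (k := k) (σ := σ) (0 : R)
  | add x y _ _ hx hy => simpa [add_mul] using polyMap_add hx hy
  | smul c x _ hx =>
    have := Submodule.smul_mem (PolyMap k σ R) c hx
    convert this using 1
    ext z
    simp

lemma polyMap_pow {v : (σ → k) → R} (hv : v ∈ PolyMap k σ R) (n : ℕ) :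
    (fun z => v z ^ n) ∈ PolyMap k σ R := by
  induction n with
  | zero => simpa using polyMap_const (k := k) (σ := σ) (1 : R)
  | succ n ih => simpa [pow_succ] using polyMap_mul ih hv

/-- Linear independence is an open condition. -/
lemma linInd_open {ι : Type*} [Fintype ι] [DecidableEq ι] {v : ι → (σ → k) → V}
    (hv : ∀ i, v i ∈ PolyMap k σ V) (z0 : σ → k)
    (h0 : LinearIndependent k (fun i => v i z0)) :
    ∃ P : MvPolynomial σ k, MvPolynomial.eval z0 P ≠ 0 ∧
      ∀ z, MvPolynomial.eval z P ≠ 0 → LinearIndependent k (fun i => v i z) := by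
  classical
  obtain ⟨φ, hφ⟩ := LinearMap.exists_extend h0.repr
  -- functional
  let ψ : ι → (V →ₗ[k] k) := fun i => (Finsupp.lapply i).comp φ
  have hψ : ∀ i j, ψ i (v j z0) = if j = i then 1 else 0 := by
    intro i j
    have h1 : φ (v j z0) = Finsupp.single j 1 := by
      have h2 := h0.repr_eq_single j ⟨v j z0, Submodule.subset_span ⟨j, rfl⟩⟩ rfl
      rw [← h2, ← hφ]
      rfl
    show (φ (v j z0)) i = _
    rw [h1, Finsupp.single_apply]
  have hP : ∀ i j, ∃ P : MvPolynomial σ k, ∀ z, ψ i (v j z) = MvPolynomial.eval z P :=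
    fun i j => polyMap_scalar (polyMap_linear (ψ i) (hv j))
  choose P hP using hP
  let D : Matrix ι ι (MvPolynomial σ k) := Matrix.of P
  have hD : ∀ z, MvPolynomial.eval z D.det = (Matrix.of fun i j => ψ i (v j z)).det := by
    intro z
    rw [RingHom.map_det]
    congr 1
    ext i j
    simp [D, hP]
  refine ⟨D.det, ?_, ?_⟩
  · rw [hD]
    have : (Matrix.of fun i j => ψ i (v j z0)) = 1 := by
      ext i j
      simp [hψ, Matrix.one_apply, eq_comm]
    rw [this]
    simp
  · intro z hz
    rw [hD] at hz
    have h3 := Matrix.linearIndependent_cols_of_det_ne_zero hz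
    have h4 : (Matrix.of fun i j => ψ i (v j z)).col = (LinearMap.pi ψ) ∘ (fun j => v j z) := by
      ext j i
      rfl
    rw [h4] at h3
    exact h3.of_comp

end PolyMap

end Run7.h445.Lech
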