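import Mathlib
import Pool.Agent.Run7.h445.Lech.Basic
import Pool.Agent.Run7.h445.Lech.Poly

set_option autoImplicit false
set_option linter.unusedSectionVars false
set_option linter.style.haveILetI false

namespace Run7.h445.Lech

open Ideal IsLocalRing

variable {R : Type*} [CommRing R] [IsLocalRing R] [IsNoetherianRing R]


lemma dm_max_ne_top : dm (maximalIdeal R) ≠ ⊤ := by
  unfold dm
  have : IsSimpleModule R (R ⧸ maximalIdeal R) := by
    rw [isSimpleModule_iff_isCoatom]
    exact Ideal.IsMaximal.out
  rw [Module.length_eq_one]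
  simp

/-- If `𝔪 s ⊆ A` and `dm (A + (s)) < ∞` then `dm A < ∞`. -/
lemma dm_ne_top_aux (s : Finset R) : ∀ (A : Ideal R), (∀ g ∈ s, ∀ r ∈ maximalIdeal R, r * g ∈ A) →
    dm (A ⊔ span (s : Set R)) ≠ ⊤ → dm A ≠ ⊤ := by
  classical
  induction s using Finset.induction with
  | empty => intro A _ h; simpa using h
  | insert a s _ ih =>
    intro A hA h
    rw [dm_eq_add A a]
    refine WithTop.add_ne_top.2 ⟨?_, ?_⟩
    · refine ne_top_of_le_ne_top dm_max_ne_top (dm_anti ?_)
      intro r hr
      exact hA a (Finset.mem_insert_self _ _) r hr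
    · refine ih _ ?_ ?_
      · intro g hg r hr
        exact Ideal.mem_sup_left (hA g (Finset.mem_insert_of_mem hg) r hr)
      · rw [Finset.coe_insert, Ideal.span_insert, ← sup_assoc] at h
        exact h

lemma dm_pow_ne_top (n : ℕ) : dm (maximalIdeal R ^ n) ≠ ⊤ := by
  induction n with
  | zero => rw [pow_zero, Ideal.one_eq_top, dm_top]; simp
  | succ n ih =>
    obtain ⟨s, hs⟩ := (inferInstance : IsNoetherianRing R).noetherian (maximalIdeal R ^ n)
    refine dm_ne_top_aux s _ ?_ ?_
    · intro g hg r hr
      have hg' : g ∈ maximalIdeal R ^ n := by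
        rw [← hs]
        exact Submodule.subset_span hg
      have h2 := Ideal.mul_mem_mul hg' hr
      rw [pow_succ, mul_comm r g]
      exact h2
    · refine ne_top_of_le_ne_top ih (dm_anti ?_)
      have : span (s : Set R) = maximalIdeal R ^ n := hs
      rw [this]
      exact le_sup_right

lemma dm_ne_top_of_pow_le {J : Ideal R} {n : ℕ} (h : maximalIdeal R ^ n ≤ J) : dm J ≠ ⊤ :=
  ne_top_of_le_ne_top (dm_pow_ne_top n) (dm_anti h)

/-- Nakayama-type lemma -/
lemma pow_le_of_dm_le {J : Ideal R} {N : ℕ} (h : dm (J ⊔ maximalIdeal R ^ (N + 1)) ≤ N) :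
    maximalIdeal R ^ N ≤ J := by
  have key : ∃ i ≤ N, J ⊔ maximalIdeal R ^ i = J ⊔ maximalIdeal R ^ (i + 1) := by
    by_contra hcon
    push Not at hcon
    have step : ∀ i ≤ N + 1, (i : ℕ∞) ≤ dm (J ⊔ maximalIdeal R ^ i) := by
      intro i
      induction i with
      | zero => intro _; simp
      | succ i ih =>
        intro hi
        have h1 := ih (by omega)
        have h2 : J ⊔ maximalIdeal R ^ (i + 1) < J ⊔ maximalIdeal R ^ i := by
          refine lt_of_le_of_ne (sup_le_sup_left (Ideal.pow_le_pow_right (Nat.le_succ i)) _) ?_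
          exact (hcon i (by omega)).symm
        have h3 := dm_lt h2 (dm_ne_top_of_pow_le (n := i + 1) le_sup_right)
        have h4 := lt_of_le_of_lt h1 h3
        rw [Nat.cast_add, Nat.cast_one]
        exact Order.add_one_le_of_lt h4
    have := step (N + 1) le_rfl
    have h5 := this.trans h
    have h6 : N + 1 ≤ N := by exact_mod_cast h5
    omega
  obtain ⟨i, hi, h1⟩ := key
  have h2 : maximalIdeal R ^ i ≤ J := by
    refine Submodule.le_of_le_smul_of_le_jacobson_bot (I := maximalIdeal R)
      (IsNoetherian.noetherian _) (maximalIdeal_le_jacobson _) ?_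
    have h3 : maximalIdeal R ^ i ≤ J ⊔ maximalIdeal R ^ (i + 1) := by
      rw [← h1]; exact le_sup_right
    rw [pow_succ'] at h3
    exact h3
  exact (Ideal.pow_le_pow_right hi).trans h2

lemma exists_pow_le_of_dm_ne_top {J : Ideal R} (h : dm J ≠ ⊤) : ∃ n, maximalIdeal R ^ n ≤ J := by
  lift dm J to ℕ using h with N hN
  refine ⟨N, pow_le_of_dm_le ?_⟩
  rw [hN]
  exact dm_anti le_sup_left

variable (k : Type*) [Field k] [Algebra k R]

lemma residue_length (hk : ∀ r : R, ∃ c : k, r - algebraMap k R c ∈ maximalIdeal R) :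
    Module.length (ResidueField k) (ResidueField R) = 1 := by
  have hs : Function.Surjective (algebraMap (ResidueField k) (ResidueField R)) := by
    intro y
    obtain ⟨r, rfl⟩ := IsLocalRing.residue_surjective y
    obtain ⟨c, hc⟩ := hk r
    refine ⟨IsLocalRing.residue k c, ?_⟩
    have h1 : algebraMap (ResidueField k) (ResidueField R) (IsLocalRing.residue k c) =
        IsLocalRing.residue R (algebraMap k R c) := rfl
    rw [h1, eq_comm, ← sub_eq_zero, ← map_sub, IsLocalRing.residue_eq_zero_iff]
    exact hc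
  rw [Module.length_eq_of_surjective hs]
  rw [Module.length_eq_one]

lemma length_k (hk : ∀ r : R, ∃ c : k, r - algebraMap k R c ∈ maximalIdeal R)
    (M : Type*) [AddCommGroup M] [Module R M] [Module k M] [IsScalarTower k R M] :
    Module.length k M = Module.length R M := by
  rw [IsLocalRing.length_restrictScalars k R M, residue_length k hk, mul_one]

/-- Semicontinuity of colength in polynomial families. -/
theorem semicont {σ ι : Type*} [Fintype ι]
    (hk : ∀ r : R, ∃ c : k, r - algebraMap k R c ∈ maximalIdeal R)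
    (Q : Ideal R) (f : ι → (σ → k) → R) (hf : ∀ i, f i ∈ PolyMap k σ R) (z0 : σ → k) :
    ∃ P : MvPolynomial σ k, MvPolynomial.eval z0 P ≠ 0 ∧
      ∀ z, MvPolynomial.eval z P ≠ 0 →
        dm (Q ⊔ span (Set.range fun i => f i z)) ≤ dm (Q ⊔ span (Set.range fun i => f i z0)) := by
  classical
  by_cases htop : dm (Q ⊔ span (Set.range fun i => f i z0)) = ⊤
  · exact ⟨1, by simp, fun z _ => by rw [htop]; exact le_top⟩
  set A : (σ → k) → Ideal R := fun z => Q ⊔ span (Set.range fun i => f i z) with hA
  change dm (A z0) ≠ ⊤ at htop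
  obtain ⟨N, hN⟩ := ENat.ne_top_iff_exists.1 htop
  let n : Ideal R := maximalIdeal R ^ (N + 1)
  let W : (σ → k) → Submodule R (R ⧸ n) := fun z => Submodule.map n.mkQ (A z)
  have hV : Module.length R (R ⧸ n) ≠ ⊤ := dm_pow_ne_top (N + 1)
  have hsplit : ∀ z, Module.length R (R ⧸ n) = Module.length R (W z) + dm (n ⊔ A z) := by
    intro z
    rw [Module.length_eq_add_of_exact (W z).subtype (W z).mkQ (Submodule.subtype_injective _)
      (Submodule.mkQ_surjective _) (LinearMap.exact_subtype_mkQ _)]
    congr 1
    exact (Submodule.quotientQuotientEquivQuotientSup n (A z)).length_eq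
  have hWtop : ∀ z, Module.length R (W z) ≠ ⊤ := by
    intro z h
    have := hsplit z
    rw [h, top_add] at this
    exact hV this
  have hWk : ∀ z, Module.length k (W z) = Module.length R (W z) := fun z => length_k k hk _
  have hVfin : Module.Finite k (R ⧸ n) := by
    have h1 : Module.length k (R ⧸ n) ≠ ⊤ := by rw [length_k k hk]; exact hV
    rw [Module.length_ne_top_iff, isFiniteLength_iff_isNoetherian_isArtinian] at h1
    haveI := h1.1
    infer_instance
  have hWfin : ∀ z, Module.Finite k (W z) := fun z => by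
    have : Module.Finite k ((W z).restrictScalars k) := inferInstance
    exact this
  -- a basis of `W z0`
  haveI := hWfin z0
  let b := Module.finBasis k (W z0)
  have hb : ∀ l, ∃ (q : R) (c : ι → R), q ∈ Q ∧
      n.mkQ (q + ∑ i, c i * f i z0) = (b l : R ⧸ n) := by
    intro l
    obtain ⟨a, ha, hab⟩ := (b l).2
    obtain ⟨q, hq, y, hy, rfl⟩ := Submodule.mem_sup.1 ha
    obtain ⟨c, rfl⟩ := (Submodule.mem_span_range_iff_exists_fun R).1 hy
    exact ⟨q, c, hq, hab⟩
  choose q c hq hqc using hb
  let v : Fin (Module.finrank k (W z0)) → (σ → k) → R ⧸ n :=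
    fun l z => n.mkQ (q l + ∑ i, c l i * f i z)
  have hv : ∀ l, v l ∈ PolyMap k σ (R ⧸ n) := by
    intro l
    refine polyMap_linear ((n.mkQ).restrictScalars k) (v := fun z => q l + ∑ i, c l i * f i z) ?_
    refine polyMap_add (polyMap_const _) (polyMap_sum _ ?_)
    intro i _
    exact polyMap_const_mul (hf i) _
  have hvW : ∀ l z, v l z ∈ W z := by
    intro l z
    refine Submodule.mem_map_of_mem ?_
    refine Submodule.add_mem_sup (hq l) ?_
    refine Submodule.sum_mem _ ?_
    intro i _
    exact Ideal.mul_mem_left _ _ (Ideal.subset_span ⟨i, rfl⟩)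
  have h0 : LinearIndependent k (fun l => v l z0) := by
    have h1 : (fun l => v l z0) = ((W z0).subtype.restrictScalars k) ∘ b := by
      funext l
      exact hqc l
    rw [h1]
    refine b.linearIndependent.map' _ ?_
    rw [LinearMap.ker_eq_bot]
    exact Subtype.val_injective
  obtain ⟨P, hP0, hP⟩ := linInd_open hv z0 h0
  refine ⟨P, hP0, ?_⟩
  intro z hz
  have h2 := hP z hz
  -- rank of `W z` is at least that of `W z0`
  have h3 : Module.finrank k (W z0) ≤ Module.finrank k (W z) := by
    haveI := hWfin z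
    let w : Fin (Module.finrank k (W z0)) → W z := fun l => ⟨v l z, hvW l z⟩
    have hw : LinearIndependent k w := by
      refine LinearIndependent.of_comp ((W z).subtype.restrictScalars k) ?_
      exact h2
    have := hw.fintype_card_le_finrank
    simpa using this
  have h4 : Module.length R (W z0) ≤ Module.length R (W z) := by
    haveI := hWfin z
    rw [← hWk, ← hWk, Module.length_eq_finrank, Module.length_eq_finrank]
    exact_mod_cast h3
  have h5 : dm (n ⊔ A z) ≤ dm (n ⊔ A z0) := by
    have e1 := hsplit z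
    have e2 := hsplit z0
    have e3 := hWtop z
    have e4 := hWtop z0
    have e5 : dm (n ⊔ A z) ≠ ⊤ := fun h => by rw [h] at e1; exact hV (by rw [e1]; simp)
    have e6 : dm (n ⊔ A z0) ≠ ⊤ := fun h => by rw [h] at e2; exact hV (by rw [e2]; simp)
    lift Module.length R (W z) to ℕ using e3 with x1
    lift Module.length R (W z0) to ℕ using e4 with x2
    lift dm (n ⊔ A z) to ℕ using e5 with x3
    lift dm (n ⊔ A z0) to ℕ using e6 with x4
    lift Module.length R (R ⧸ n) to ℕ using hV with x5
    norm_cast at *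
    omega
  have h6 : dm (A z ⊔ n) ≤ N := by
    rw [sup_comm]
    refine h5.trans ?_
    rw [hN]
    exact dm_anti le_sup_right
  have h7 : maximalIdeal R ^ N ≤ A z := pow_le_of_dm_le h6
  have h8 : A z ⊔ n = A z := sup_eq_left.2 ((Ideal.pow_le_pow_right (Nat.le_succ N)).trans h7)
  rw [h8, hN] at h6
  exact h6

end Run7.h445.Lech
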