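import Mathlib
import Pool.Agent.Run7.h445.Lech.Semi

set_option autoImplicit false
set_option linter.unusedSectionVars false

namespace Run7.h445.Lech

open Ideal IsLocalRing

variable {R : Type*} [CommRing R]
variable {k : Type*} [Field k] [Algebra k R]

/-- Minimise over one slot. -/
noncomputable def slotOp (V : Submodule k R) (F : Ideal R → ℕ∞) : Ideal R → ℕ∞ :=
  fun Q => ⨅ f : V, F (Q ⊔ span {(f : R)})

instance : LeftCommutative (slotOp (R := R) (k := k)) where
  left_comm := by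
    intro V W F
    funext Q
    unfold slotOp
    rw [iInf_comm]
    refine iInf_congr fun w => iInf_congr fun v => ?_
    rw [sup_right_comm]

/-- `E Q [V₁,…,V_m]` is the least colength of `Q + (f₁,…,f_m)`, `f_j ∈ V_j`. -/
noncomputable def E (Q : Ideal R) (M : Multiset (Submodule k R)) : ℕ∞ :=
  M.foldr slotOp dm Q

lemma E_zero (Q : Ideal R) : E (k := k) Q 0 = dm Q := rfl

lemma E_cons (Q : Ideal R) (V : Submodule k R) (M : Multiset (Submodule k R)) :
    E Q (V ::ₘ M) = ⨅ f : V, E (Q ⊔ span {(f : R)}) M := by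
  unfold E
  rw [Multiset.foldr_cons]
  rfl

lemma E_cons_le {Q : Ideal R} {V : Submodule k R} (M : Multiset (Submodule k R)) {f : R}
    (hf : f ∈ V) : E Q (V ::ₘ M) ≤ E (Q ⊔ span {f}) M := by
  rw [E_cons]
  exact iInf_le (fun g : V => E (Q ⊔ span {(g : R)}) M) ⟨f, hf⟩

lemma exists_E_cons (Q : Ideal R) (V : Submodule k R) (M : Multiset (Submodule k R)) :
    ∃ f ∈ V, E (Q ⊔ span {f}) M = E Q (V ::ₘ M) := by
  rw [E_cons]
  obtain ⟨f, hf⟩ := ciInf_mem (fun g : V => E (Q ⊔ span {(g : R)}) M)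
  exact ⟨f, f.2, hf⟩

lemma E_anti (M : Multiset (Submodule k R)) : ∀ {Q Q' : Ideal R}, Q ≤ Q' → E Q' M ≤ E Q M := by
  induction M using Multiset.induction with
  | empty => intro Q Q' h; exact dm_anti h
  | cons V M ih =>
    intro Q Q' h
    rw [E_cons, E_cons]
    exact iInf_mono fun f => ih (sup_le_sup_right h _)

lemma E_slot_anti {Q : Ideal R} {V W : Submodule k R} (M : Multiset (Submodule k R)) (h : V ≤ W) :
    E Q (W ::ₘ M) ≤ E Q (V ::ₘ M) := by
  obtain ⟨f, hf, hE⟩ := exists_E_cons Q V M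
  rw [← hE]
  exact E_cons_le M (h hf)

lemma E_top (M : Multiset (Submodule k R)) : E (⊤ : Ideal R) M = 0 := by
  induction M using Multiset.induction with
  | empty => exact dm_top
  | cons V M ih =>
    have := E_cons_le (Q := ⊤) M (V.zero_mem)
    rw [top_sup_eq, ih] at this
    exact le_antisymm this bot_le

lemma E_slot_top {Q : Ideal R} {V : Submodule k R} (M : Multiset (Submodule k R))
    (h : (1 : R) ∈ V) : E Q (V ::ₘ M) = 0 := by
  have := E_cons_le (Q := Q) M h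
  rw [Ideal.span_singleton_one, sup_top_eq, E_top] at this
  exact le_antisymm this bot_le

section local_

variable [IsLocalRing R] [IsNoetherianRing R]

lemma semicont1 {σ : Type*} (hk : ∀ r : R, ∃ c : k, r - algebraMap k R c ∈ maximalIdeal R)
    (Q : Ideal R) {f : (σ → k) → R} (hf : f ∈ PolyMap k σ R) (z0 : σ → k) :
    ∃ P : MvPolynomial σ k, MvPolynomial.eval z0 P ≠ 0 ∧
      ∀ z, MvPolynomial.eval z P ≠ 0 → dm (Q ⊔ span {f z}) ≤ dm (Q ⊔ span {f z0}) := by
  obtain ⟨P, h0, hP⟩ := semicont k hk Q (fun _ : Unit => f) (fun _ => hf) z0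
  refine ⟨P, h0, fun z hz => ?_⟩
  have := hP z hz
  simpa [Set.range_const] using this

variable [Infinite k]

lemma exists_eval_ne {σ : Type*} {P : MvPolynomial σ k} (h : P ≠ 0) :
    ∃ z, MvPolynomial.eval z P ≠ 0 := by
  by_contra hcon
  push Not at hcon
  exact h (MvPolynomial.funext fun z => by rw [hcon z, map_zero])

lemma ne_zero_of_eval {σ : Type*} {P : MvPolynomial σ k} {z : σ → k}
    (h : MvPolynomial.eval z P ≠ 0) : P ≠ 0 := by
  rintro rfl
  exact h (map_zero _)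

/-- joint selection of near-optimal elements for two base ideals -/
theorem joint (hk : ∀ r : R, ∃ c : k, r - algebraMap k R c ∈ maximalIdeal R)
    (M : Multiset (Submodule k R)) : ∀ (Q1 Q2 : Ideal R),
    ∃ b : Ideal R, (∀ Q, E Q M ≤ dm (Q ⊔ b)) ∧ dm (Q1 ⊔ b) ≤ E Q1 M ∧ dm (Q2 ⊔ b) ≤ E Q2 M := by
  induction M using Multiset.induction with
  | empty =>
    intro Q1 Q2
    refine ⟨⊥, fun Q => ?_, ?_, ?_⟩ <;> simp [E_zero]
  | cons V M ih =>
    intro Q1 Q2
    obtain ⟨f1, hf1, e1⟩ := exists_E_cons Q1 V M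
    obtain ⟨f2, hf2, e2⟩ := exists_E_cons Q2 V M
    obtain ⟨b1, hb1, hb1', -⟩ := ih (Q1 ⊔ span {f1}) (Q1 ⊔ span {f1})
    obtain ⟨b2, hb2, hb2', -⟩ := ih (Q2 ⊔ span {f2}) (Q2 ⊔ span {f2})
    let F : (Unit → k) → R := fun z => f1 + z () • (f2 - f1)
    have hF : F ∈ PolyMap k Unit R := by
      refine polyMap_add (polyMap_const f1) ?_
      have := polyMap_basic (k := k) (MvPolynomial.X ()) (f2 - f1)
      simpa using this
    obtain ⟨P1, hP1, hP1'⟩ := semicont1 hk (Q1 ⊔ b1) hF (fun _ => 0)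
    obtain ⟨P2, hP2, hP2'⟩ := semicont1 hk (Q2 ⊔ b2) hF (fun _ => 1)
    obtain ⟨z, hz⟩ := exists_eval_ne (mul_ne_zero (ne_zero_of_eval hP1) (ne_zero_of_eval hP2))
    rw [map_mul] at hz
    have h1 := hP1' z (left_ne_zero_of_mul hz)
    have h2 := hP2' z (right_ne_zero_of_mul hz)
    have hF0 : F (fun _ => 0) = f1 := by simp [F]
    have hF1 : F (fun _ => 1) = f2 := by simp [F]
    rw [hF0] at h1
    rw [hF1] at h2
    have hFV : F z ∈ V := V.add_mem hf1 (V.smul_mem _ (V.sub_mem hf2 hf1))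
    have g1 : E (Q1 ⊔ span {F z}) M ≤ E Q1 (V ::ₘ M) := by
      refine (hb1 _).trans ?_
      rw [sup_right_comm]
      refine h1.trans ?_
      rw [sup_right_comm, ← e1]
      exact hb1'
    have g2 : E (Q2 ⊔ span {F z}) M ≤ E Q2 (V ::ₘ M) := by
      refine (hb2 _).trans ?_
      rw [sup_right_comm]
      refine h2.trans ?_
      rw [sup_right_comm, ← e2]
      exact hb2'
    obtain ⟨b, hb, hb', hb''⟩ := ih (Q1 ⊔ span {F z}) (Q2 ⊔ span {F z})
    refine ⟨span {F z} ⊔ b, fun Q => ?_, ?_, ?_⟩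
    · refine (E_cons_le M hFV).trans ?_
      rw [← sup_assoc]
      exact hb _
    · rw [← sup_assoc]
      exact hb'.trans g1
    · rw [← sup_assoc]
      exact hb''.trans g2

/-- Replacing a slot by a product of slots. -/
theorem E_sum (hk : ∀ r : R, ∃ c : k, r - algebraMap k R c ∈ maximalIdeal R)
    (n : ℕ) (U V W : Submodule k R) (M : Multiset (Submodule k R)) (Q : Ideal R)
    (h : ∀ f ∈ V, ∀ g ∈ W, f ^ n * g ∈ U) :
    E Q (U ::ₘ M) ≤ n * E Q (V ::ₘ M) + E Q (W ::ₘ M) := by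
  obtain ⟨f, hf, ef⟩ := exists_E_cons Q V M
  obtain ⟨g, hg, eg⟩ := exists_E_cons Q W M
  obtain ⟨b, hb, hb1, hb2⟩ := joint hk M (Q ⊔ span {f}) (Q ⊔ span {g})
  rw [← ef, ← eg]
  refine (E_cons_le M (h f hf g hg)).trans ((hb _).trans ?_)
  rw [sup_right_comm]
  refine (dm_pow_mul_le (Q ⊔ b) f g n).trans ?_
  rw [sup_right_comm Q b, sup_right_comm Q b]
  exact add_le_add (mul_le_mul_right hb1 _) hb2

/-- Powers in a slot. -/
theorem E_pow (hk : ∀ r : R, ∃ c : k, r - algebraMap k R c ∈ maximalIdeal R)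
    (b : ℕ) (U V : Submodule k R) (M : Multiset (Submodule k R)) (Q : Ideal R)
    (h : ∀ f ∈ V, ∃ u ∈ U, f ^ b - u ∈ Q) :
    E Q (U ::ₘ M) ≤ b * E Q (V ::ₘ M) := by
  obtain ⟨f, hf, ef⟩ := exists_E_cons Q V M
  obtain ⟨u, hu, huQ⟩ := h f hf
  obtain ⟨a, ha, ha1, -⟩ := joint hk M (Q ⊔ span {f}) (Q ⊔ span {f})
  rw [← ef]
  refine (E_cons_le M hu).trans ((ha _).trans ?_)
  have e1 : f ^ b ∈ Q ⊔ span {u} := by
    have : f ^ b = (f ^ b - u) + u := by ring
    rw [this]
    exact Submodule.add_mem_sup huQ (Ideal.mem_span_singleton_self _)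
  have e2 : Q ⊔ a ⊔ span {f ^ b * 1} ≤ Q ⊔ span {u} ⊔ a := by
    rw [mul_one]
    refine sup_le (sup_le (le_sup_left.trans le_sup_left) le_sup_right) ?_
    rw [Ideal.span_singleton_le_iff_mem]
    exact Ideal.mem_sup_left e1
  refine (dm_anti e2).trans ((dm_pow_mul_le (Q ⊔ a) f 1 b).trans ?_)
  rw [Ideal.span_singleton_one, sup_top_eq, dm_top, add_zero, sup_right_comm]
  exact mul_le_mul_right ha1 _

theorem E_pow_replicate (hk : ∀ r : R, ∃ c : k, r - algebraMap k R c ∈ maximalIdeal R)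
    (b : ℕ) (U V : Submodule k R) (Q : Ideal R)
    (h : ∀ f ∈ V, ∃ u ∈ U, f ^ b - u ∈ Q) (a : ℕ) : ∀ (M : Multiset (Submodule k R)),
    E Q (Multiset.replicate a U + M) ≤ (b : ℕ∞) ^ a * E Q (Multiset.replicate a V + M) := by
  induction a with
  | zero => intro M; simp
  | succ a ih =>
    intro M
    rw [Multiset.replicate_succ, Multiset.cons_add]
    refine (E_pow hk b U V _ Q h).trans ?_
    rw [← Multiset.add_cons, pow_succ', mul_assoc]
    refine mul_le_mul_right ((ih (V ::ₘ M)).trans ?_) _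
    rw [Multiset.replicate_succ, Multiset.cons_add, Multiset.add_cons]

end local_

end Run7.h445.Lech
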