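import Mathlib
import Pool.Agent.Run7.h445.Lech.Slots

set_option autoImplicit false
set_option linter.unusedSectionVars false

namespace Run7.h445.Lech

open Ideal IsLocalRing

variable {R : Type*} [CommRing R]
variable {k : Type*} [Field k] [Algebra k R]

/-- factor off the largest power of the exponential characteristic -/
lemma exists_factor (q : ℕ) [ExpChar k q] (t : ℕ) (ht : t ≠ 0) :
    ∃ w u : ℕ, t = q ^ w * u ∧ (u : k) ≠ 0 ∧ w ≤ t := by
  rcases expChar_is_prime_or_one k q with hq | hq
  · have : CharP k q := by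
      rcases ‹ExpChar k q› with _ | hp
      · exact absurd hq Nat.not_prime_one
      · assumption
    obtain ⟨w, u, hu, rfl⟩ := Nat.exists_eq_pow_mul_and_not_dvd ht q hq.ne_one
    refine ⟨w, u, rfl, ?_, ?_⟩
    · rw [Ne, CharP.cast_eq_zero_iff k q]
      exact hu
    · have h1 : w < q ^ w := Nat.lt_pow_self hq.one_lt
      have h2 : u ≠ 0 := by rintro rfl; simp at ht
      have h3 : q ^ w ≤ q ^ w * u := Nat.le_mul_of_pos_right _ (Nat.pos_of_ne_zero h2)
      omega
  · subst hq
    have : CharZero k := by
      rcases ‹ExpChar k 1› with _ | hp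
      · assumption
      · exact absurd hp Nat.not_prime_one
    exact ⟨0, t, by simp, by exact_mod_cast ht, Nat.zero_le _⟩

variable [IsLocalRing R] [IsNoetherianRing R] [Infinite k]

/-- The lowering lemma: first-order consequence of the maximality of the rank of
`x ^ t` on `R/I`. -/
theorem lowering (hk : ∀ r : R, ∃ c : k, r - algebraMap k R c ∈ maximalIdeal R)
    (q : ℕ) [ExpChar k q] [ExpChar R q] (I : Ideal R) (hI : dm I ≠ ⊤) (x y : R) (w u : ℕ)
    (hu : (u : k) ≠ 0)
    (hmin : ∀ s : k, dm (I ⊔ span {x ^ (q ^ w * u)}) ≤ dm (I ⊔ span {(x + s • y) ^ (q ^ w * u)}))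
    (g : R) (hg : g * x ^ (q ^ w * u) ∈ I) :
    y ^ q ^ w * g ∈ cln I (x ^ (q ^ w * u - q ^ w)) ⊔ span {x} := by
  have hβ : 0 < q ^ w := expChar_pow_pos k q w
  set β := q ^ w with hβdef
  set X := x ^ β with hX
  set Y := y ^ β with hY
  have hu0 : u ≠ 0 := by rintro rfl; simp at hu
  have hXu : x ^ (β * u) = X ^ u := by rw [pow_mul]
  let G : (Unit → k) → R := fun z =>
    ∑ i ∈ Finset.range u, (z () • Y + X) ^ i * X ^ (u - 1 - i)
  let F : (Unit → k) → R := fun z => (z () • Y + X) ^ u
  let q' : (Unit → k) → R := fun z => G z * (Y * g)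
  have hlin : (fun z : Unit → k => z () • Y + X) ∈ PolyMap k Unit R := by
    refine polyMap_add ?_ (polyMap_const X)
    have := polyMap_basic (k := k) (MvPolynomial.X ()) Y
    simpa using this
  have hG : G ∈ PolyMap k Unit R := by
    refine polyMap_sum _ ?_
    intro i _
    exact polyMap_mul_const (polyMap_pow hlin i) _
  have hF : F ∈ PolyMap k Unit R := polyMap_pow hlin u
  have hq' : q' ∈ PolyMap k Unit R := polyMap_mul_const hG _
  have hid : ∀ z, G z * (z () • Y) + X ^ u = F z := by
    intro z
    exact geom_sum₂_mul_add (z () • Y) X u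
  have hF0 : F (fun _ => 0) = X ^ u := by simp [F]
  have hG0 : G (fun _ => 0) = (u : R) * X ^ (u - 1) := by
    simp only [G, zero_smul, zero_add]
    rw [Finset.sum_congr rfl (g := fun _ => X ^ (u - 1))]
    · simp
    · intro i hi
      rw [Finset.mem_range] at hi
      rw [← pow_add]
      congr 1
      omega
  have hmem : q' (fun _ => 0) ∈ I ⊔ span {X ^ u} := by
    by_contra hcon
    let f : Fin 2 → (Unit → k) → R := ![F, q']
    have hf : ∀ i, f i ∈ PolyMap k Unit R := by
      intro i
      fin_cases i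
      · exact hF
      · exact hq'
    obtain ⟨P, hP0, hP⟩ := semicont k hk I f hf (fun _ => 0)
    have hrange : ∀ z, Set.range (fun i => f i z) = {F z, q' z} := by
      intro z
      ext a
      simp [f]
      tauto
    -- a good parameter
    let P' : MvPolynomial Unit k := MvPolynomial.bind₁ (fun i => MvPolynomial.X i ^ β) P
    have hP' : ∀ z : Unit → k, MvPolynomial.eval z P' = MvPolynomial.eval (fun i => z i ^ β) P := by
      intro z
      have := MvPolynomial.aeval_bind₁ (R := k) z (fun i : Unit => MvPolynomial.X i ^ β) P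
      have ha : ∀ (z' : Unit → k) (p : MvPolynomial Unit k),
          MvPolynomial.aeval z' p = MvPolynomial.eval z' p := fun _ _ => rfl
      rw [ha, ha] at this
      rw [this]
      simp
    have hP'0 : P' ≠ 0 := by
      refine ne_zero_of_eval (z := fun _ => 0) ?_
      rw [hP']
      have : (fun _ : Unit => (0 : k) ^ β) = fun _ => 0 := by
        funext _
        exact zero_pow hβ.ne'
      rw [this]
      exact hP0
    obtain ⟨s, hs⟩ := exists_eval_ne (mul_ne_zero hP'0 (MvPolynomial.X_ne_zero (R := k) ()))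
    rw [map_mul, MvPolynomial.eval_X, hP'] at hs
    have hs1 := left_ne_zero_of_mul hs
    have hs2 : s () ≠ 0 := right_ne_zero_of_mul hs
    have h1 := hP _ hs1
    rw [hrange, hrange] at h1
    set z : Unit → k := fun i => s i ^ β with hz
    have hz0 : z () ≠ 0 := pow_ne_zero _ hs2
    -- `q' z ∈ I + (F z)`
    have h2 : q' z ∈ I ⊔ span {F z} := by
      have e : z () • q' z = -(g * X ^ u) + g * F z := by
        rw [← hid z]
        simp only [q', Algebra.smul_def]
        ring
      have e2 : q' z = (z ())⁻¹ • (-(g * X ^ u) + g * F z) := by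
        rw [← e, smul_smul, inv_mul_cancel₀ hz0, one_smul]
      rw [e2, Algebra.smul_def]
      refine Ideal.mul_mem_left _ _ (Submodule.add_mem_sup ?_ ?_)
      · rw [neg_mem_iff, ← hXu]
        exact hg
      · exact Ideal.mul_mem_left _ _ (Ideal.mem_span_singleton_self _)
    have h3 : I ⊔ span {F z, q' z} ≤ I ⊔ span {F z} := by
      refine sup_le le_sup_left ?_
      rw [Ideal.span_le]
      rintro a (rfl | rfl)
      · exact Ideal.mem_sup_right (Ideal.mem_span_singleton_self _)
      · exact h2
    have h4 : F z = (x + s () • y) ^ (β * u) := by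
      simp only [F, hz]
      rw [pow_mul, hβdef, add_pow_expChar_pow, smul_pow, ← hβdef, add_comm]
    have h5 : I ⊔ span {X ^ u} < I ⊔ span {F (fun _ => 0), q' (fun _ => 0)} := by
      refine lt_of_le_of_ne ?_ ?_
      · refine sup_le_sup_left (Ideal.span_mono ?_) _
        rw [hF0]
        simp
      · intro he
        apply hcon
        rw [he]
        refine Ideal.mem_sup_right (Ideal.subset_span ?_)
        simp
    have h6 : dm (I ⊔ span {X ^ u}) ≠ ⊤ := ne_top_of_le_ne_top hI (dm_anti le_sup_left)
    have h7 := dm_lt h5 h6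
    have h8 := hmin (s ())
    rw [← h4, hXu] at h8
    exact absurd (lt_of_le_of_lt (h8.trans ((dm_anti h3).trans h1)) h7) (lt_irrefl _)
  -- conclude
  obtain ⟨i, hi, j, hj, hij⟩ := Submodule.mem_sup.1 hmem
  obtain ⟨h, rfl⟩ := Ideal.mem_span_singleton'.1 hj
  simp only [q', hG0] at hij
  have e1 : (algebraMap k R (u : k)⁻¹) * (u : R) = 1 := by
    have : (u : R) = algebraMap k R (u : k) := by simp
    rw [this, ← map_mul, inv_mul_cancel₀ hu, map_one]
  have hXX : X ^ u = X ^ (u - 1) * X := by
    rw [← pow_succ]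
    congr 1
    omega
  set c := algebraMap k R (u : k)⁻¹ with hc
  have e2 : (Y * g - c * h * X) * X ^ (u - 1) = c * i := by
    have e3 : c * (i + h * X ^ u) = c * ((u : R) * X ^ (u - 1) * (Y * g)) := by rw [hij]
    have e4 : c * ((u : R) * X ^ (u - 1) * (Y * g)) = X ^ (u - 1) * (Y * g) := by
      rw [← mul_assoc, ← mul_assoc c, e1, one_mul]
    rw [e4, hXX] at e3
    linear_combination -e3
  have e5 : x ^ (β * u - β) = X ^ (u - 1) := by
    rw [hX, ← pow_mul]
    congr 1
    rw [Nat.mul_sub_one]
  rw [e5]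
  have e6 : Y * g = (Y * g - c * h * X) + c * h * X := by ring
  rw [e6]
  refine Submodule.add_mem_sup ?_ ?_
  · rw [mem_cln, e2]
    exact Ideal.mul_mem_left _ _ hi
  · refine Ideal.mul_mem_left _ _ ?_
    rw [hX, Ideal.mem_span_singleton]
    exact dvd_pow_self x hβ.ne'

end Run7.h445.Lech
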