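import Mathlib
import Pool.Agent.Run7.h445.Lech.Lower

set_option autoImplicit false
set_option linter.unusedSectionVars false

namespace Run7.h445.Lech

open Ideal IsLocalRing

variable {R : Type*} [CommRing R]

lemma cln_cln (I : Ideal R) (x : R) (t : ℕ) : cln (cln I (x ^ t)) x = cln I (x ^ (t + 1)) := by
  ext r
  rw [mem_cln, mem_cln, mem_cln, pow_succ', mul_assoc]

lemma sum_slices (I : Ideal R) (x : R) (T : ℕ) :
    ∑ t ∈ Finset.range T, dm (cln I (x ^ t) ⊔ span {x}) + dm (cln I (x ^ T)) = dm I := by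
  induction T with
  | zero =>
    simp only [Finset.range_zero, Finset.sum_empty, zero_add, pow_zero]
    congr 1
    ext r
    rw [mem_cln, mul_one]
  | succ T ih =>
    rw [Finset.sum_range_succ, ← ih, dm_eq_add (cln I (x ^ T)) x, cln_cln]
    ring

lemma sum_slices_le (I : Ideal R) (x : R) (T : ℕ) :
    ∑ t ∈ Finset.range T, dm (cln I (x ^ t) ⊔ span {x}) ≤ dm I := by
  rw [← sum_slices I x T]
  exact le_self_add

/-- Asymptotic slices. -/
noncomputable def AJ (q : ℕ) [ExpChar R q] (I : Ideal R) (x : R) (v t : ℕ) : Ideal R :=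
  Ideal.comap (iterateFrobenius R q v) (cln (I ^ q ^ v) (x ^ (t * q ^ v)) ⊔ span {x})

section

variable (q : ℕ) [ExpChar R q] (I : Ideal R) (x : R)

lemma mem_AJ {v t : ℕ} {f : R} :
    f ∈ AJ q I x v t ↔ f ^ q ^ v ∈ cln (I ^ q ^ v) (x ^ (t * q ^ v)) ⊔ span {x} := Iff.rfl

lemma AJ_zero_ge (t : ℕ) : cln I (x ^ t) ⊔ span {x} ≤ AJ q I x 0 t := by
  intro f hf
  rw [mem_AJ]
  simpa using hf

lemma AJ_succ (v t : ℕ) : AJ q I x v t ≤ AJ q I x (v + 1) t := by
  intro f hf
  rw [mem_AJ] at hf ⊢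
  obtain ⟨h, hh, y, hy, hfy⟩ := Submodule.mem_sup.1 hf
  rw [pow_succ, pow_mul f, ← hfy, add_pow_expChar]
  refine Submodule.add_mem_sup ?_ ?_
  · rw [mem_cln] at hh ⊢
    have : h ^ q * x ^ (t * (q ^ v * q)) = (h * x ^ (t * q ^ v)) ^ q := by
      rw [mul_pow, ← pow_mul, mul_assoc]
    rw [this, pow_mul I]
    exact Ideal.pow_mem_pow hh q
  · exact Ideal.pow_mem_of_mem _ hy _ (expChar_pos R q)

lemma AJ_mono (v w t : ℕ) : AJ q I x v t ≤ AJ q I x (v + w) t := by
  induction w with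
  | zero => exact le_rfl
  | succ w ih => exact ih.trans (AJ_succ q I x (v + w) t)

lemma le_AJ (v t : ℕ) : I ≤ AJ q I x v t := by
  intro f hf
  rw [mem_AJ]
  refine Ideal.mem_sup_left ?_
  rw [mem_cln]
  exact Ideal.mul_mem_right _ _ (Ideal.pow_mem_pow hf _)

lemma mem_AJ_self (v t : ℕ) : x ∈ AJ q I x v t := by
  rw [mem_AJ]
  refine Ideal.mem_sup_right ?_
  exact Ideal.pow_mem_of_mem _ (Ideal.mem_span_singleton_self x) _ (expChar_pow_pos R q v)

lemma AJ_top {T : ℕ} (hT : x ^ T ∈ I) {v t : ℕ} (h : T ≤ t) : AJ q I x v t = ⊤ := by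
  rw [Ideal.eq_top_iff_one, mem_AJ, one_pow]
  refine Ideal.mem_sup_left ?_
  rw [mem_cln, one_mul, pow_mul]
  refine Ideal.pow_mem_pow ?_ _
  obtain ⟨r, rfl⟩ := Nat.exists_eq_add_of_le h
  rw [pow_add]
  exact Ideal.mul_mem_right _ _ hT

end

variable {k : Type*} [Field k] [Algebra k R]
variable [IsLocalRing R] [IsNoetherianRing R] [Infinite k]

/-- one-step lowering on asymptotic slices -/
theorem AJ_lower (hk : ∀ r : R, ∃ c : k, r - algebraMap k R c ∈ maximalIdeal R)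
    (q : ℕ) [ExpChar k q] [ExpChar R q] (I : Ideal R) (x y : R) (v w u t : ℕ)
    (hI : dm (I ^ q ^ v) ≠ ⊤) (ht : t + 1 = q ^ w * u) (hu : (u : k) ≠ 0)
    (hmin : ∀ s : k, dm (I ^ q ^ v ⊔ span {x ^ ((t + 1) * q ^ v)}) ≤
      dm (I ^ q ^ v ⊔ span {(x + s • y) ^ ((t + 1) * q ^ v)}))
    {f : R} (hf : f ∈ AJ q I x v (t + 1)) : y * f ∈ AJ q I x (v + w) t := by
  rw [mem_AJ] at hf ⊢
  obtain ⟨h, hh, j, hj, hfj⟩ := Submodule.mem_sup.1 hf
  rw [mem_cln] at hh
  have hu0 : 1 ≤ u := by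
    rcases Nat.eq_zero_or_pos u with rfl | h
    · simp at hu
    · exact h
  have hqw : 0 < q ^ w := expChar_pow_pos R q w
  have hexp : (t + 1) * q ^ v = q ^ (v + w) * u := by
    rw [ht, pow_add]; ring
  rw [hexp] at hmin hh
  have key := lowering hk q (I ^ q ^ v) hI x y (v + w) u hu hmin h hh
  obtain ⟨h', hh', j', hj', hkey⟩ := Submodule.mem_sup.1 key
  rw [mem_cln] at hh'
  obtain ⟨n, hn⟩ : ∃ n, q ^ w = n + 1 := ⟨q ^ w - 1, by omega⟩
  have e1 : (y * f) ^ q ^ (v + w) = h' * h ^ n + (j' * h ^ n + y ^ q ^ (v + w) * j ^ q ^ w) := by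
    rw [mul_pow]
    have : f ^ q ^ (v + w) = h ^ q ^ w + j ^ q ^ w := by
      rw [pow_add, pow_mul, ← hfj, add_pow_expChar_pow]
    rw [this, mul_add, hn, pow_succ h n]
    have e2 : y ^ q ^ (v + w) * (h ^ n * h) = (y ^ q ^ (v + w) * h) * h ^ n := by ring
    rw [e2, ← hkey]
    ring
  rw [e1]
  refine Submodule.add_mem_sup ?_ (Ideal.add_mem _ (Ideal.mul_mem_right _ _ hj')
    (Ideal.mul_mem_left _ _ (Ideal.pow_mem_of_mem _ hj _ hqw)))
  rw [mem_cln]
  have e3 : h' * h ^ n * x ^ (t * q ^ (v + w)) =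
      (h' * x ^ (q ^ (v + w) * u - q ^ (v + w))) * (h * x ^ (q ^ (v + w) * u)) ^ n := by
    have e4 : t * q ^ (v + w) = (q ^ (v + w) * u - q ^ (v + w)) + q ^ (v + w) * u * n := by
      have e5 : (t + 1) * q ^ (v + w) = q ^ (v + w) * u * (n + 1) := by
        rw [ht, ← hn]; ring
      have e6 : q ^ (v + w) ≤ q ^ (v + w) * u := Nat.le_mul_of_pos_right _ hu0
      obtain ⟨z, hz⟩ := Nat.exists_eq_add_of_le e6
      rw [hz] at e5 ⊢
      rw [Nat.add_sub_cancel_left]
      ring_nf at e5 ⊢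
      omega
    rw [e4, pow_add, mul_pow, ← pow_mul]
    ring
  rw [e3]
  have e7 : I ^ q ^ (v + w) = I ^ q ^ v * (I ^ q ^ v) ^ n := by
    rw [← pow_succ', ← hn, ← pow_mul, pow_add]
  rw [e7]
  exact Ideal.mul_mem_mul hh' (Ideal.pow_mem_pow hh n)

/-- a generic linear combination minimises finitely many colengths -/
theorem exists_good (hk : ∀ r : R, ∃ c : k, r - algebraMap k R c ∈ maximalIdeal R)
    {m : ℕ} (l : Fin (m + 1) → R) {α : Type*} (S : Finset α) (A : α → Ideal R) (t : α → ℕ) :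
    ∃ a : Fin (m + 1) → k, a 0 ≠ 0 ∧ ∀ p ∈ S, ∀ a' : Fin (m + 1) → k,
      dm (A p ⊔ span {(∑ j, a j • l j) ^ t p}) ≤ dm (A p ⊔ span {(∑ j, a' j • l j) ^ t p}) := by
  classical
  let F : α → (Fin (m + 1) → k) → R := fun p z => (∑ j, z j • l j) ^ t p
  have hF : ∀ p, F p ∈ PolyMap k (Fin (m + 1)) R := by
    intro p
    refine polyMap_pow (polyMap_sum _ ?_) _
    intro j _
    have := polyMap_basic (k := k) (MvPolynomial.X j) (l j)
    simpa using this
  have h1 : ∀ p, ∃ b : Fin (m + 1) → k, ∀ a', dm (A p ⊔ span {F p b}) ≤ dm (A p ⊔ span {F p a'}) := by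
    intro p
    obtain ⟨b, hb⟩ := ciInf_mem (fun a' => dm (A p ⊔ span {F p a'}))
    exact ⟨b, fun a' => by
      have : dm (A p ⊔ span {F p b}) = ⨅ a', dm (A p ⊔ span {F p a'}) := hb
      rw [this]
      exact iInf_le _ a'⟩
  choose b hb using h1
  have h2 : ∀ p, ∃ P : MvPolynomial (Fin (m + 1)) k, MvPolynomial.eval (b p) P ≠ 0 ∧
      ∀ z, MvPolynomial.eval z P ≠ 0 → dm (A p ⊔ span {F p z}) ≤ dm (A p ⊔ span {F p (b p)}) :=
    fun p => semicont1 hk (A p) (hF p) (b p)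
  choose P hP0 hP using h2
  have h3 : MvPolynomial.X 0 * ∏ p ∈ S, P p ≠ 0 := by
    refine mul_ne_zero (MvPolynomial.X_ne_zero _) ?_
    rw [Finset.prod_ne_zero_iff]
    exact fun p _ => ne_zero_of_eval (hP0 p)
  obtain ⟨a, ha⟩ := exists_eval_ne h3
  rw [map_mul, MvPolynomial.eval_X, map_prod] at ha
  refine ⟨a, left_ne_zero_of_mul ha, ?_⟩
  intro p hp a'
  have h4 := Finset.prod_ne_zero_iff.1 (right_ne_zero_of_mul ha) p hp
  exact (hP p a h4).trans (hb p a')

/-- The asymptotic slices for a generic linear form and a suitable power of the exponential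
characteristic: they are stable under lowering and their colengths add up to at most `ℓ(R/I)`. -/
theorem exists_slices (hk : ∀ r : R, ∃ c : k, r - algebraMap k R c ∈ maximalIdeal R)
    (q : ℕ) [ExpChar k q] [ExpChar R q] {m : ℕ} (l : Fin (m + 1) → R) (Q I : Ideal R)
    (hQ : Q ⊔ span (Set.range l) = maximalIdeal R) (hQI : Q ≤ I)
    (T : ℕ) (hT : maximalIdeal R ^ T ≤ I) :
    ∃ (a : Fin (m + 1) → k) (v : ℕ), a 0 ≠ 0 ∧
      (∀ t, maximalIdeal R * AJ q I (∑ j, a j • l j) v (t + 1) ≤ AJ q I (∑ j, a j • l j) v t) ∧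
      ∑ t ∈ Finset.range T, dm (AJ q I (∑ j, a j • l j) v t) ≤ dm I := by
  classical
  have hl : ∀ j, l j ∈ maximalIdeal R := by
    intro j
    rw [← hQ]
    exact Ideal.mem_sup_right (Ideal.subset_span ⟨j, rfl⟩)
  have hdm : dm I ≠ ⊤ := dm_ne_top_of_pow_le hT
  obtain ⟨C, hC⟩ := ENat.ne_top_iff_exists.1 hdm
  have hdmq : ∀ v, dm (I ^ q ^ v) ≠ ⊤ := by
    intro v
    refine dm_ne_top_of_pow_le (n := T * q ^ v) ?_
    rw [pow_mul]
    exact Ideal.pow_right_mono hT _
  obtain ⟨a, ha0, hgood⟩ := exists_good hk l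
    (Finset.range (T * (C + 1) + 1) ×ˢ Finset.range T)
    (fun p => I ^ q ^ p.1) (fun p => (p.2 + 1) * q ^ p.1)
  set x := ∑ j, a j • l j with hx
  have hxm : x ∈ maximalIdeal R := by
    refine Ideal.sum_mem _ fun j _ => ?_
    rw [Algebra.smul_def]
    exact Ideal.mul_mem_left _ _ (hl j)
  have hxT : x ^ T ∈ I := hT (Ideal.pow_mem_pow hxm T)
  have hmin : ∀ v ≤ T * (C + 1), ∀ t < T, ∀ i, ∀ s : k,
      dm (I ^ q ^ v ⊔ span {x ^ ((t + 1) * q ^ v)}) ≤
        dm (I ^ q ^ v ⊔ span {(x + s • l i) ^ ((t + 1) * q ^ v)}) := by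
    intro v hv t ht i s
    have h1 := hgood (v, t) (by simp; omega) (a + Pi.single i s)
    have h2 : ∑ j, (a + Pi.single i s : Fin (m + 1) → k) j • l j = x + s • l i := by
      simp [add_smul, Finset.sum_add_distrib, Pi.single_apply, ite_smul, hx]
    rw [h2] at h1
    exact h1
  have hlow : ∀ v ≤ T * (C + 1), ∀ t < T, ∀ i, ∀ f ∈ AJ q I x v (t + 1),
      l i * f ∈ AJ q I x (v + T) t := by
    intro v hv t ht i f hf
    obtain ⟨w, u, hwu, hu, hw⟩ := exists_factor (k := k) q (t + 1) (Nat.succ_ne_zero t)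
    have h1 := AJ_lower hk q I x (l i) v w u t (hdmq v) hwu hu (hmin v hv t ht i) hf
    have h2 := AJ_mono q I x (v + w) (T - w) t
    have h3 : v + w + (T - w) = v + T := by omega
    rw [h3] at h2
    exact h2 h1
  have hfin : ∀ v t, dm (AJ q I x v t) ≠ ⊤ := fun v t =>
    ne_top_of_le_ne_top hdm (dm_anti (le_AJ q I x v t))
  -- total colengths
  let c : ℕ → ℕ := fun v => ∑ t ∈ Finset.range T, (dm (AJ q I x v t)).toNat
  have hc : ∀ v, ((c v : ℕ) : ℕ∞) = ∑ t ∈ Finset.range T, dm (AJ q I x v t) := by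
    intro v
    simp only [c, Nat.cast_sum]
    exact Finset.sum_congr rfl fun t _ => ENat.natCast_toNat (hfin v t)
  have hsum : ∀ v, ∑ t ∈ Finset.range T, dm (AJ q I x v t) ≤ dm I := by
    intro v
    refine le_trans (Finset.sum_le_sum fun t _ => ?_) (sum_slices_le I x T)
    have := AJ_mono q I x 0 v t
    rw [zero_add] at this
    exact dm_anti ((AJ_zero_ge q I x t).trans this)
  have hcC : ∀ v, c v ≤ C := by
    intro v
    have := hsum v
    rw [← hc, ← hC] at this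
    exact_mod_cast this
  -- stabilisation
  have hstab : ∃ j ≤ C, ∀ t < T, AJ q I x (j * T) t = AJ q I x (j * T + T) t := by
    by_contra hcon
    push Not at hcon
    have hdec : ∀ j ≤ C, c (j * T + T) < c (j * T) := by
      intro j hj
      obtain ⟨t, ht, hne⟩ := hcon j hj
      refine Finset.sum_lt_sum ?_ ?_
      · intro t' _
        exact ENat.toNat_le_toNat (dm_anti (AJ_mono q I x _ _ _)) (hfin _ _)
      · refine ⟨t, Finset.mem_range.2 ht, ?_⟩
        have h1 : AJ q I x (j * T) t < AJ q I x (j * T + T) t :=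
          lt_of_le_of_ne (AJ_mono q I x _ _ _) hne
        have h2 := dm_lt h1 (hfin _ _)
        have e1 := ENat.natCast_toNat (hfin (j * T + T) t)
        have e2 := ENat.natCast_toNat (hfin (j * T) t)
        rw [← e1, ← e2] at h2
        exact_mod_cast h2
    have hdec2 : ∀ j ≤ C + 1, c (j * T) + j ≤ C := by
      intro j
      induction j with
      | zero => intro _; simpa using hcC 0
      | succ j ih =>
        intro hj
        have h1 := ih (by omega)
        have h2 := hdec j (by omega)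
        have h3 : (j + 1) * T = j * T + T := by ring
        rw [h3]
        omega
    have := hdec2 (C + 1) le_rfl
    omega
  obtain ⟨j, hj, hst⟩ := hstab
  refine ⟨a, j * T, ha0, ?_, hsum _⟩
  intro t
  by_cases ht : T ≤ t
  · rw [AJ_top q I x hxT ht]
    exact le_top
  push Not at ht
  rw [← hQ, Ideal.sup_mul]
  refine sup_le ?_ ?_
  · exact Ideal.mul_le_left.trans (hQI.trans (le_AJ q I x _ _))
  · rw [Ideal.mul_le]
    intro r hr f hf
    have h1 : span (Set.range l) ≤ cln (AJ q I x (j * T) t) f := by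
      rw [Ideal.span_le]
      rintro _ ⟨i, rfl⟩
      show l i * f ∈ AJ q I x (j * T) t
      rw [hst t ht]
      refine hlow _ ?_ t ht i f hf
      calc j * T ≤ C * T := Nat.mul_le_mul_right _ hj
        _ ≤ T * (C + 1) := by ring_nf; omega
    exact h1 hr

end Run7.h445.Lech
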