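import Mathlib
import Pool.Agent.Run7.h445.Lech.Slices
import Pool.Agent.Run7.h445.Lech.Num

set_option autoImplicit false
set_option linter.unusedSectionVars false

namespace Run7.h445.Lech

open Ideal IsLocalRing Multiset

variable {R : Type*} [CommRing R]
variable {k : Type*} [Field k] [Algebra k R]

variable (k) in
/-- an ideal as a slot -/
abbrev sl (J : Ideal R) : Submodule k R := Submodule.restrictScalars k J

lemma mem_sl {J : Ideal R} {f : R} : f ∈ sl k J ↔ f ∈ J := Iff.rfl

variable [IsLocalRing R] [IsNoetherianRing R] [Infinite k]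

/-- peeling off one slice from one slot -/
lemma slice_step (hk : ∀ r : R, ∃ c : k, r - algebraMap k R c ∈ maximalIdeal R)
    (N : ℕ) (x : R) (U W : Submodule k R) (hUW : ∀ h ∈ W, x ^ N * h ∈ U)
    (M : Multiset (Submodule k R)) (Q : Ideal R) :
    E Q (U ::ₘ M) ≤ N * E (Q ⊔ span {x}) M + E Q (W ::ₘ M) := by
  have h1 := E_sum hk N U (Submodule.span k {x}) W M Q (by
    intro f hf g hg
    obtain ⟨c, rfl⟩ := Submodule.mem_span_singleton.1 hf
    rw [smul_pow, smul_mul_assoc]
    exact U.smul_mem _ (hUW g hg))
  refine h1.trans (add_le_add (mul_le_mul_right ?_ _) le_rfl)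
  exact E_cons_le M (Submodule.mem_span_singleton_self x)

lemma slice_replicate (hk : ∀ r : R, ∃ c : k, r - algebraMap k R c ∈ maximalIdeal R)
    (N : ℕ) (x : R) (U W : Submodule k R) (hUW : ∀ h ∈ W, x ^ N * h ∈ U) (Q : Ideal R) (a : ℕ) :
    ∀ (M : Multiset (Submodule k R)),
    E Q (replicate a U + M) ≤
      N * ∑ j ∈ Finset.range a, E (Q ⊔ span {x}) (replicate (a - 1 - j) U + (replicate j W + M)) +
        E Q (replicate a W + M) := by
  induction a with
  | zero => intro M; simp
  | succ a ih =>
    intro M
    rw [Multiset.replicate_succ, Multiset.cons_add]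
    refine (slice_step hk N x U W hUW _ Q).trans ?_
    rw [← Multiset.add_cons]
    refine (add_le_add le_rfl (ih (W ::ₘ M))).trans (le_of_eq ?_)
    rw [Finset.sum_range_succ', mul_add]
    have e1 : ∀ j ∈ Finset.range a,
        E (Q ⊔ span {x}) (replicate (a - 1 - j) U + (replicate j W + W ::ₘ M)) =
        E (Q ⊔ span {x}) (replicate (a + 1 - 1 - (j + 1)) U + (replicate (j + 1) W + M)) := by
      intro j hj
      rw [Finset.mem_range] at hj
      have e2 : a + 1 - 1 - (j + 1) = a - 1 - j := by omega
      rw [e2, Multiset.replicate_succ, Multiset.cons_add, Multiset.add_cons]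
    rw [Finset.sum_congr rfl e1]
    have e3 : replicate (a + 1 - 1 - 0) U + (replicate 0 W + M) = replicate a U + M := by simp
    rw [e3, Multiset.replicate_succ, Multiset.cons_add, Multiset.add_cons]
    ring

/-- the slices inequality -/
lemma slices (hk : ∀ r : R, ∃ c : k, r - algebraMap k R c ∈ maximalIdeal R)
    (N : ℕ) (x : R) (U : ℕ → Submodule k R) (hU : ∀ t, ∀ h ∈ U (t + 1), x ^ N * h ∈ U t)
    (Q : Ideal R) (a : ℕ) (M : Multiset (Submodule k R)) (T : ℕ) :
    E Q (replicate a (U 0) + M) ≤
      N * ∑ t ∈ Finset.range T, ∑ j ∈ Finset.range a,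
        E (Q ⊔ span {x}) (replicate (a - 1 - j) (U t) + (replicate j (U (t + 1)) + M)) +
        E Q (replicate a (U T) + M) := by
  induction T with
  | zero => simp
  | succ T ih =>
    refine ih.trans ?_
    refine (add_le_add le_rfl (slice_replicate hk N x (U T) (U (T + 1)) (hU T) Q a M)).trans ?_
    rw [Finset.sum_range_succ, mul_add, add_assoc]

/-- binomial expansion, in terms of the functional `Phi` -/
lemma expand (hk : ∀ r : R, ∃ c : k, r - algebraMap k R c ∈ maximalIdeal R)
    (n m : ℕ) (L A B : Submodule k R) (hA : ∀ f ∈ L, ∀ g ∈ B, f ^ n * g ∈ A) (Q : Ideal R)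
    (a : ℕ) : ∀ (j i : ℕ), a + j + i = m →
    (n : ℕ∞) ^ i * E Q (replicate a A + (replicate j B + replicate i L)) ≤
      Phi (fun b => (n : ℕ∞) ^ (m - b) * E Q (replicate b B + replicate (m - b) L))
        (Polynomial.X ^ j * (Polynomial.X + 1) ^ a) := by
  induction a with
  | zero =>
    intro j i hij
    rw [pow_zero, mul_one, Phi_X_pow]
    have : m - j = i := by omega
    rw [this]
    simp
  | succ a ih =>
    intro j i hij
    rw [Multiset.replicate_succ, Multiset.cons_add]
    have h1 := E_sum hk n A L B (replicate a A + (replicate j B + replicate i L)) Q hA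
    refine (mul_le_mul_right h1 _).trans ?_
    have h2 := ih j (i + 1) (by omega)
    have h3 := ih (j + 1) i (by omega)
    have e1 : L ::ₘ (replicate a A + (replicate j B + replicate i L)) =
        replicate a A + (replicate j B + replicate (i + 1) L) := by
      rw [Multiset.replicate_succ, Multiset.add_cons, Multiset.add_cons]
    have e2 : B ::ₘ (replicate a A + (replicate j B + replicate i L)) =
        replicate a A + (replicate (j + 1) B + replicate i L) := by
      rw [Multiset.replicate_succ, Multiset.cons_add, Multiset.add_cons]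
    rw [e1, e2]
    have e3 : (Polynomial.X ^ j * (Polynomial.X + 1) ^ (a + 1) : Polynomial ℕ) =
        Polynomial.X ^ j * (Polynomial.X + 1) ^ a +
          Polynomial.X ^ (j + 1) * (Polynomial.X + 1) ^ a := by ring
    rw [e3, Phi_add, mul_add]
    refine add_le_add ?_ h3
    refine le_trans (le_of_eq ?_) h2
    ring

end Run7.h445.Lech
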