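import Mathlib
import Pool.Agent.Run7.h445.Lech.Chain

set_option autoImplicit false
set_option linter.unusedSectionVars false

namespace Run7.h445.Lech

open Ideal IsLocalRing Multiset

variable {R : Type*} [CommRing R]

lemma sup_pow_le (K X : Ideal R) (n : ℕ) : (K ⊔ X) ^ n ≤ K ^ n ⊔ X := by
  induction n with
  | zero =>
    rw [pow_zero, pow_zero]
    exact le_sup_left
  | succ n ih =>
    have h1 : (K ⊔ X) ^ n * (K ⊔ X) ≤ (K ^ n ⊔ X) * (K ⊔ X) := Ideal.mul_mono_left ih
    have h2 : (K ^ n ⊔ X) * (K ⊔ X) = K ^ n * K ⊔ K ^ n * X ⊔ X * (K ⊔ X) := by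
      rw [Ideal.sup_mul, Ideal.mul_sup (K ^ n)]
    have h3 : K ^ n * X ≤ X := Ideal.mul_le_right
    have h4 : X * (K ⊔ X) ≤ X := Ideal.mul_le_left
    rw [pow_succ, pow_succ K n]
    rw [h2] at h1
    exact h1.trans (sup_le (sup_le le_sup_left (h3.trans le_sup_right)) (h4.trans le_sup_right))

lemma AJ_pow_mem (q : ℕ) [ExpChar R q] (I : Ideal R) (x : R) (v t n : ℕ) {f : R}
    (hf : f ∈ (AJ q I x v t) ^ n) :
    ∃ u ∈ (cln (I ^ q ^ v) (x ^ (t * q ^ v))) ^ n, f ^ q ^ v - u ∈ span {x} := by
  have h1 := Ideal.le_comap_pow (iterateFrobenius R q v)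
    (K := cln (I ^ q ^ v) (x ^ (t * q ^ v)) ⊔ span {x}) n hf
  rw [Ideal.mem_comap] at h1
  obtain ⟨u, hu, y, hy, huy⟩ := Submodule.mem_sup.1 (sup_pow_le _ _ n h1)
  refine ⟨u, hu, ?_⟩
  have h2 : f ^ q ^ v = u + y := by rw [huy]; rfl
  rw [h2, add_sub_cancel_left]
  exact hy

variable {k : Type*} [Field k] [Algebra k R]

/-- The Stirling-weighted sum at level `n`. -/
noncomputable def Lam (L : Submodule k R) (n m : ℕ) (Q I : Ideal R) : ℕ∞ :=
  Phi (fun b => (n : ℕ∞) ^ (m - b) * E Q (replicate b (sl k (I ^ n)) + replicate (m - b) L))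
    (ascPochhammer ℕ m)

variable [IsLocalRing R] [IsNoetherianRing R] [Infinite k]

lemma Lam_mul (hk : ∀ r : R, ∃ c : k, r - algebraMap k R c ∈ maximalIdeal R)
    (L : Submodule k R) (c n m : ℕ) (Q I : Ideal R) :
    Lam L (c * n) m Q I ≤ (c : ℕ∞) ^ m * Lam L n m Q I := by
  unfold Lam
  refine Phi_le _ _ _ _ m (by rw [ascPochhammer_natDegree]) ?_
  intro a ha
  have h1 := E_pow_replicate hk c (sl k (I ^ (c * n))) (sl k (I ^ n)) Q (by
    intro f hf
    refine ⟨f ^ c, ?_, by simp⟩
    rw [mem_sl, mul_comm, pow_mul]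
    exact Ideal.pow_mem_pow hf c) a (replicate (m - a) L)
  refine (mul_le_mul_right h1 _).trans (le_of_eq ?_)
  obtain ⟨r, rfl⟩ := Nat.exists_eq_add_of_le ha
  rw [Nat.add_sub_cancel_left]
  push_cast
  rw [mul_pow, pow_add]
  ring

/-- **The main inequality** in the relative setting. -/
theorem main (hk : ∀ r : R, ∃ c : k, r - algebraMap k R c ∈ maximalIdeal R)
    (L : Submodule k R) (hL : ∀ f ∈ L, f ∈ maximalIdeal R) (m : ℕ) :
    ∀ (Q I : Ideal R) (l : Fin m → R), (∀ j, l j ∈ L) →
      Q ⊔ span (Set.range l) = maximalIdeal R → Q ≤ I → I ≠ ⊤ →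
      (∃ T, maximalIdeal R ^ T ≤ I) →
      ∃ n : ℕ, 1 ≤ n ∧ Lam L n m Q I ≤ (n : ℕ∞) ^ m * (m.factorial * dm I) := by
  classical
  induction m with
  | zero =>
    intro Q I l _ hQ hQI hI _
    refine ⟨1, le_rfl, ?_⟩
    have h1 : Q = maximalIdeal R := by
      rw [← hQ]
      simp
    have h2 : I = maximalIdeal R := by
      refine ((maximalIdeal.isMaximal R).eq_of_le hI ?_).symm
      rw [← h1]; exact hQI
    have h3 : Lam L 1 0 Q I = dm Q := by
      unfold Lam
      rw [ascPochhammer_zero, ← pow_zero (Polynomial.X : Polynomial ℕ), Phi_X_pow]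
      simp [E_zero]
    rw [h3, h1, h2]
    simp
  | succ m ih =>
    intro Q I l hl hQ hQI hI hT
    obtain ⟨T, hT⟩ := hT
    let q := ringExpChar k
    have : ExpChar k q := ringExpChar.expChar k
    have : ExpChar R q := expChar_of_injective_algebraMap (algebraMap k R).injective q
    obtain ⟨a, v, ha0, hlow, hsum⟩ := exists_slices hk q l Q I hQ hQI T hT
    set x := ∑ j, a j • l j with hx
    have hxL : x ∈ L := L.sum_mem fun j _ => L.smul_mem _ (hl j)
    have hxm : x ∈ maximalIdeal R := hL x hxL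
    set b := q ^ v with hb
    have hb0 : 0 < b := expChar_pow_pos k q v
    let J : ℕ → Ideal R := AJ q I x v
    let K : ℕ → Ideal R := fun t => cln (I ^ b) (x ^ (t * b))
    have hJT : J T = ⊤ := AJ_top q I x (hT (Ideal.pow_mem_pow hxm T)) le_rfl
    have hex : ∃ t, J t = ⊤ := ⟨T, hJT⟩
    let T0 := Nat.find hex
    have hT0 : J T0 = ⊤ := Nat.find_spec hex
    have hT0T : T0 ≤ T := Nat.find_min' hex hJT
    have hT0lt : ∀ t < T0, J t ≠ ⊤ := fun t ht => Nat.find_min hex ht
    -- the new base
    set Q' := Q ⊔ span {x} with hQ'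
    let l' : Fin m → R := fun j => l j.succ
    have hQ'm : Q' ⊔ span (Set.range l') = maximalIdeal R := by
      apply le_antisymm
      · refine sup_le (sup_le ?_ ?_) ?_
        · rw [← hQ]; exact le_sup_left
        · rw [Ideal.span_singleton_le_iff_mem]; exact hxm
        · rw [Ideal.span_le]
          rintro _ ⟨j, rfl⟩
          exact hL _ (hl _)
      · rw [← hQ]
        refine sup_le (le_sup_left.trans le_sup_left) ?_
        rw [Ideal.span_le]
        rintro _ ⟨j, rfl⟩
        refine Fin.cases ?_ (fun i => ?_) j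
        · have h1 : l 0 = algebraMap k R (a 0)⁻¹ * (x - ∑ i : Fin m, a i.succ • l i.succ) := by
            rw [hx, Fin.sum_univ_succ, add_sub_cancel_right, ← Algebra.smul_def, smul_smul,
              inv_mul_cancel₀ ha0, one_smul]
          rw [h1]
          refine Ideal.mul_mem_left _ _ (Ideal.sub_mem _ ?_ ?_)
          · exact Ideal.mem_sup_left (Ideal.mem_sup_right (Ideal.mem_span_singleton_self _))
          · refine Ideal.sum_mem _ fun i _ => ?_
            rw [Algebra.smul_def]
            exact Ideal.mul_mem_left _ _ (Ideal.mem_sup_right (Ideal.subset_span ⟨i, rfl⟩))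
        · exact Ideal.mem_sup_right (Ideal.subset_span ⟨i, rfl⟩)
    have hQ'J : ∀ t, Q' ≤ J t := fun t =>
      sup_le (hQI.trans (le_AJ q I x v t))
        ((Ideal.span_singleton_le_iff_mem _).2 (mem_AJ_self q I x v t))
    -- induction hypothesis
    have hih : ∀ t : ℕ, ∃ n : ℕ, 1 ≤ n ∧ (t < T0 →
        Lam L n m Q' (J t) ≤ (n : ℕ∞) ^ m * (m.factorial * dm (J t))) := by
      intro t
      by_cases ht : t < T0
      · obtain ⟨n, hn, hn'⟩ := ih Q' (J t) l' (fun j => hl _) hQ'm (hQ'J t) (hT0lt t ht)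
          ⟨T, hT.trans (le_AJ q I x v t)⟩
        exact ⟨n, hn, fun _ => hn'⟩
      · exact ⟨1, le_rfl, fun h => absurd h ht⟩
    choose ν hν1 hν using hih
    let n := ∏ t ∈ Finset.range T0, ν t
    have hn1 : 1 ≤ n := Finset.one_le_prod' fun t _ => hν1 t
    have hnt : ∀ t < T0, Lam L n m Q' (J t) ≤ (n : ℕ∞) ^ m * (m.factorial * dm (J t)) := by
      intro t ht
      obtain ⟨c, hc⟩ : ν t ∣ n := Finset.dvd_prod_of_mem _ (Finset.mem_range.2 ht)
      rw [hc, mul_comm]
      refine (Lam_mul hk L c (ν t) m Q' (J t)).trans ((mul_le_mul_right (hν t ht) _).trans ?_)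
      push_cast
      rw [mul_pow, mul_assoc]
    -- slots
    let U : ℕ → Submodule k R := fun t => sl k ((K t) ^ n)
    let A : ℕ → Submodule k R := fun t => sl k ((J t) ^ n)
    have hK0 : K 0 = I ^ b := by
      ext r
      show r * x ^ (0 * b) ∈ I ^ b ↔ r ∈ I ^ b
      rw [zero_mul, pow_zero, mul_one]
    have hU0 : sl k (I ^ (b * n)) = U 0 := by
      show sl k (I ^ (b * n)) = sl k ((K 0) ^ n)
      rw [hK0, pow_mul]
    have hU : ∀ t, ∀ h ∈ U (t + 1), x ^ (b * n) * h ∈ U t := by
      intro t h hh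
      have h1 : span {x ^ b} * K (t + 1) ≤ K t := by
        rw [Ideal.span_singleton_mul_le_iff]
        intro z hz
        have hz' : z * x ^ ((t + 1) * b) ∈ I ^ b := hz
        show x ^ b * z * x ^ (t * b) ∈ I ^ b
        have : x ^ b * z * x ^ (t * b) = z * x ^ ((t + 1) * b) := by
          rw [add_mul, one_mul, pow_add]; ring
        rw [this]
        exact hz'
      have h2 : (span {x ^ b}) ^ n * (K (t + 1)) ^ n ≤ (K t) ^ n := by
        rw [← mul_pow]
        exact Ideal.pow_right_mono h1 n
      have h3 : x ^ (b * n) ∈ (span {x ^ b}) ^ n := by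
        rw [pow_mul]
        exact Ideal.pow_mem_pow (Ideal.mem_span_singleton_self _) n
      exact h2 (Ideal.mul_mem_mul h3 hh)
    have hUA : ∀ t, ∀ f ∈ A t, ∃ u ∈ U t, f ^ b - u ∈ Q' := by
      intro t f hf
      obtain ⟨u, hu, huf⟩ := AJ_pow_mem q I x v t n hf
      exact ⟨u, hu, Ideal.mem_sup_right huf⟩
    have hUtop : (1 : R) ∈ U T0 := by
      have h1 : cln (I ^ q ^ v) (x ^ (T0 * q ^ v)) ⊔ span {x} = ⊤ := by
        have h2 : (1 : R) ∈ J T0 := by rw [hT0]; trivial
        have h3 : (1 : R) ^ q ^ v ∈ cln (I ^ q ^ v) (x ^ (T0 * q ^ v)) ⊔ span {x} := h2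
        rw [one_pow] at h3
        rwa [Ideal.eq_top_iff_one]
      have h4 : K T0 = ⊤ := by
        by_contra hne
        have h5 : K T0 ≤ maximalIdeal R := le_maximalIdeal hne
        have h6 : cln (I ^ q ^ v) (x ^ (T0 * q ^ v)) ⊔ span {x} ≤ maximalIdeal R :=
          sup_le h5 ((Ideal.span_singleton_le_iff_mem _).2 hxm)
        rw [h1] at h6
        exact (maximalIdeal.isMaximal R).ne_top (top_le_iff.1 h6)
      show (1 : R) ∈ (K T0) ^ n
      rw [h4, Ideal.top_pow]
      trivial
    have hAlow : ∀ t, ∀ f ∈ L, ∀ g ∈ A (t + 1), f ^ n * g ∈ A t := by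
      intro t f hf g hg
      have h1 : (maximalIdeal R) ^ n * (J (t + 1)) ^ n ≤ (J t) ^ n := by
        rw [← mul_pow]
        exact Ideal.pow_right_mono (hlow t) n
      exact h1 (Ideal.mul_mem_mul (Ideal.pow_mem_pow (hL f hf) n) hg)
    -- the numerical data
    let e : ℕ → ℕ∞ := fun a => ((b * n : ℕ) : ℕ∞) ^ (m + 1 - a) *
      E Q (replicate a (sl k (I ^ (b * n))) + replicate (m + 1 - a) L)
    let ε : ℕ → ℕ → ℕ∞ := fun t a => (n : ℕ∞) ^ (m - a) *
      E Q' (replicate a (A t) + replicate (m - a) L)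
    let c : ℕ∞ := (b : ℕ∞) ^ (m + 1) * n
    have hLe : Lam L (b * n) (m + 1) Q I = Phi e (ascPochhammer ℕ (m + 1)) := rfl
    have hLε : ∀ t, Lam L n m Q' (J t) = Phi (ε t) (ascPochhammer ℕ m) := fun t => rfl
    have ha : ∀ a ≤ m, e (a + 1) ≤
        c * ∑ t ∈ Finset.range T0, (ε t a + Phi (ε (t + 1)) (gpoly a)) := by
      intro a ham
      have s1 := slices hk (b * n) x U hU Q (a + 1) (replicate (m - a) L) T0
      have s2 : E Q (replicate (a + 1) (U T0) + replicate (m - a) L) = 0 := by
        rw [Multiset.replicate_succ, Multiset.cons_add]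
        exact E_slot_top _ hUtop
      rw [s2, add_zero] at s1
      have s3 : ∀ t, ∀ j ∈ Finset.range (a + 1),
          E Q' (replicate (a + 1 - 1 - j) (U t) + (replicate j (U (t + 1)) + replicate (m - a) L)) ≤
          (b : ℕ∞) ^ a *
          E Q' (replicate (a + 1 - 1 - j) (A t) + (replicate j (A (t + 1)) + replicate (m - a) L)) := by
        intro t j hj
        rw [Finset.mem_range] at hj
        refine (E_pow_replicate hk b (U t) (A t) Q' (hUA t) _ _).trans ?_
        rw [add_left_comm]
        refine (mul_le_mul_right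
          (E_pow_replicate hk b (U (t + 1)) (A (t + 1)) Q' (hUA (t + 1)) _ _) _).trans ?_
        rw [add_left_comm, ← mul_assoc, ← pow_add]
        have : a + 1 - 1 - j + j = a := by omega
        rw [this]
      have s4 : ∀ t, (n : ℕ∞) ^ (m - a) * ∑ j ∈ Finset.range (a + 1),
          E Q' (replicate (a + 1 - 1 - j) (A t) + (replicate j (A (t + 1)) + replicate (m - a) L)) ≤
          ε t a + Phi (ε (t + 1)) (gpoly a) := by
        intro t
        rw [Finset.sum_range_succ', mul_add, add_comm]
        refine add_le_add (le_of_eq ?_) ?_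
        · simp [ε]
        · rw [gpoly, Phi_sum, Finset.mul_sum]
          refine Finset.sum_le_sum fun j hj => ?_
          rw [Finset.mem_range] at hj
          have s5 := expand hk n m L (A t) (A (t + 1)) (hAlow t) Q' (a - 1 - j) (j + 1) (m - a)
            (by omega)
          have s6 : a + 1 - 1 - (j + 1) = a - 1 - j := by omega
          rw [s6]
          exact s5
      have s7 : m + 1 - (a + 1) = m - a := by omega
      calc e (a + 1) = ((b * n : ℕ) : ℕ∞) ^ (m - a) *
            E Q (replicate (a + 1) (U 0) + replicate (m - a) L) := by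
            show ((b * n : ℕ) : ℕ∞) ^ (m + 1 - (a + 1)) *
              E Q (replicate (a + 1) (sl k (I ^ (b * n))) + replicate (m + 1 - (a + 1)) L) = _
            rw [s7, hU0]
        _ ≤ ((b * n : ℕ) : ℕ∞) ^ (m - a) * (((b * n : ℕ) : ℕ∞) * ∑ t ∈ Finset.range T0,
            ∑ j ∈ Finset.range (a + 1),
            E Q' (replicate (a + 1 - 1 - j) (U t) +
              (replicate j (U (t + 1)) + replicate (m - a) L))) := mul_le_mul_right s1 _
        _ ≤ ((b * n : ℕ) : ℕ∞) ^ (m - a) * (((b * n : ℕ) : ℕ∞) * ∑ t ∈ Finset.range T0,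
            ∑ j ∈ Finset.range (a + 1), (b : ℕ∞) ^ a *
            E Q' (replicate (a + 1 - 1 - j) (A t) +
              (replicate j (A (t + 1)) + replicate (m - a) L))) := by
            refine mul_le_mul_right (mul_le_mul_right ?_ _) _
            exact Finset.sum_le_sum fun t _ => Finset.sum_le_sum (s3 t)
        _ = c * ∑ t ∈ Finset.range T0, ((n : ℕ∞) ^ (m - a) * ∑ j ∈ Finset.range (a + 1),
            E Q' (replicate (a + 1 - 1 - j) (A t) +
              (replicate j (A (t + 1)) + replicate (m - a) L))) := by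
            simp only [← Finset.mul_sum]
            rw [← mul_assoc, ← mul_assoc, ← mul_assoc]
            congr 1
            show _ = (b : ℕ∞) ^ (m + 1) * n * (n : ℕ∞) ^ (m - a)
            obtain ⟨r, rfl⟩ := Nat.exists_eq_add_of_le ham
            rw [Nat.add_sub_cancel_left]
            push_cast
            ring
        _ ≤ _ := mul_le_mul_right (Finset.sum_le_sum fun t _ => s4 t) _
    have hb' : ∀ a ≤ m, e a ≤ c * ε 0 a := by
      intro a ham
      have s7 : m + 1 - a = (m - a) + 1 := by omega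
      have s1 : E Q (replicate a (U 0) + replicate (m - a + 1) L) ≤
          (b : ℕ∞) ^ a * E Q' (replicate a (A 0) + replicate (m - a) L) := by
        rw [Multiset.replicate_succ, Multiset.add_cons]
        exact (E_cons_le _ hxL).trans (E_pow_replicate hk b (U 0) (A 0) Q' (hUA 0) _ _)
      calc e a = ((b * n : ℕ) : ℕ∞) ^ (m - a + 1) *
            E Q (replicate a (U 0) + replicate (m - a + 1) L) := by
            show ((b * n : ℕ) : ℕ∞) ^ (m + 1 - a) *
              E Q (replicate a (sl k (I ^ (b * n))) + replicate (m + 1 - a) L) = _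
            rw [s7, hU0]
        _ ≤ ((b * n : ℕ) : ℕ∞) ^ (m - a + 1) *
            ((b : ℕ∞) ^ a * E Q' (replicate a (A 0) + replicate (m - a) L)) :=
            mul_le_mul_right s1 _
        _ = c * ε 0 a := by
            show _ = (b : ℕ∞) ^ (m + 1) * n * ((n : ℕ∞) ^ (m - a) *
              E Q' (replicate a (A 0) + replicate (m - a) L))
            rw [← mul_assoc, ← mul_assoc]
            congr 1
            obtain ⟨r, rfl⟩ := Nat.exists_eq_add_of_le ham
            rw [Nat.add_sub_cancel_left]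
            push_cast
            ring
    have hTz : (m : ℕ∞) * Phi (ε T0) (ascPochhammer ℕ m) = 0 := by
      rcases Nat.eq_zero_or_pos m with hm | hm
      · rw [hm]; simp
      · have : Phi (ε T0) (ascPochhammer ℕ m) = 0 := by
          unfold Phi
          refine Finset.sum_eq_zero fun a _ => ?_
          rcases Nat.eq_zero_or_pos a with ha | ha
          · rw [ha]
            have : (ascPochhammer ℕ m).coeff 0 = 0 := by
              rw [Polynomial.coeff_zero_eq_eval_zero, ascPochhammer_eval_zero]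
              simp [hm.ne']
            rw [this]
            simp
          · obtain ⟨a', rfl⟩ : ∃ a', a = a' + 1 := ⟨a - 1, by omega⟩
            have : E Q' (replicate (a' + 1) (A T0) + replicate (m - (a' + 1)) L) = 0 := by
              rw [Multiset.replicate_succ, Multiset.cons_add]
              refine E_slot_top _ ?_
              show (1 : R) ∈ (J T0) ^ n
              rw [hT0, Ideal.top_pow]
              trivial
            simp only [ε]
            rw [this]
            simp
        rw [this, mul_zero]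
    have hnum := num m T0 e ε c ha hb' hTz
    refine ⟨b * n, Nat.one_le_iff_ne_zero.2 (Nat.mul_ne_zero hb0.ne' (by omega)), ?_⟩
    rw [hLe]
    refine hnum.trans ?_
    have h1 : ∑ t ∈ Finset.range T0, Phi (ε t) (ascPochhammer ℕ m) ≤
        (n : ℕ∞) ^ m * (m.factorial * dm I) := by
      calc ∑ t ∈ Finset.range T0, Phi (ε t) (ascPochhammer ℕ m)
          ≤ ∑ t ∈ Finset.range T0, (n : ℕ∞) ^ m * (m.factorial * dm (J t)) := by
            refine Finset.sum_le_sum fun t ht => ?_
            rw [← hLε]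
            exact hnt t (Finset.mem_range.1 ht)
        _ = (n : ℕ∞) ^ m * (m.factorial * ∑ t ∈ Finset.range T0, dm (J t)) := by
            rw [← Finset.mul_sum, ← Finset.mul_sum]
        _ ≤ (n : ℕ∞) ^ m * (m.factorial * ∑ t ∈ Finset.range T, dm (J t)) := by
            refine mul_le_mul_right (mul_le_mul_right ?_ _) _
            exact Finset.sum_le_sum_of_subset (Finset.range_subset_range.2 hT0T)
        _ ≤ _ := mul_le_mul_right (mul_le_mul_right hsum _) _
    refine (mul_le_mul_right (mul_le_mul_right h1 _) _).trans (le_of_eq ?_)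
    show (b : ℕ∞) ^ (m + 1) * n * (((m : ℕ∞) + 1) * ((n : ℕ∞) ^ m * (m.factorial * dm I))) = _
    rw [Nat.factorial_succ]
    push_cast
    ring

end Run7.h445.Lech
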