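import Mathlib
import Pool.Agent.Run7.h445.Lech.Main

set_option autoImplicit false
set_option linter.unusedSectionVars false

namespace Run7.h445.Lech

open Ideal IsLocalRing Multiset

section general

variable {R : Type*} [CommRing R]

/-- selecting elements for repeated slots -/
lemma exists_sel {k : Type*} [Field k] [Algebra k R] (V : Submodule k R) (a : ℕ) :
    ∀ (M : Multiset (Submodule k R)) (Q : Ideal R),
    ∃ F : Fin a → R, (∀ j, F j ∈ V) ∧ E (Q ⊔ span (Set.range F)) M ≤ E Q (replicate a V + M) := by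
  induction a with
  | zero =>
    intro M Q
    refine ⟨fun _ => 0, fun j => V.zero_mem, ?_⟩
    simp
  | succ a ih =>
    intro M Q
    rw [Multiset.replicate_succ, Multiset.cons_add]
    obtain ⟨f, hf, he⟩ := exists_E_cons Q V (replicate a V + M)
    obtain ⟨F, hF, hE⟩ := ih M (Q ⊔ span {f})
    refine ⟨Fin.cons f F, ?_, ?_⟩
    · intro j
      refine Fin.cases ?_ (fun i => ?_) j
      · simpa using hf
      · simpa using hF i
    · rw [← he]
      refine le_trans (le_of_eq ?_) hE
      congr 1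
      rw [Fin.range_cons, Ideal.span_insert, sup_assoc]

/-- `ℓ(R/(F^μ + Λ)) ≤ C(μ+a-1,a) ℓ(R/(F+Λ))` for `F` generated by `a` elements. -/
lemma dm_pow_bound (a : ℕ) : ∀ (μ : ℕ) (Λ : Ideal R) (F : Fin a → R),
    dm (span (Set.range F) ^ μ ⊔ Λ) ≤ ((μ + a - 1).choose a : ℕ) * dm (span (Set.range F) ⊔ Λ) := by
  induction a with
  | zero =>
    intro μ Λ F
    simp only [Nat.choose_zero_right, Nat.cast_one, one_mul]
    refine dm_anti ?_
    have : span (Set.range F) = ⊥ := by simp
    rw [this, bot_sup_eq]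
    exact le_sup_right
  | succ a iha =>
    intro μ
    induction μ with
    | zero =>
      intro Λ F
      rw [pow_zero, Ideal.one_eq_top, top_sup_eq, dm_top]
      exact bot_le
    | succ μ ihμ =>
      intro Λ F
      set G := span (Set.range F) with hG
      let F' : Fin a → R := fun j => F j.succ
      have hGF : G = span {F 0} ⊔ span (Set.range F') := by
        rw [hG, ← Ideal.span_insert]
        congr 1
        ext y
        constructor
        · rintro ⟨j, rfl⟩
          refine Fin.cases ?_ (fun i => ?_) j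
          · exact Set.mem_insert _ _
          · exact Set.mem_insert_of_mem _ ⟨i, rfl⟩
        · rintro (rfl | ⟨i, rfl⟩)
          · exact ⟨0, rfl⟩
          · exact ⟨i.succ, rfl⟩
      have hF0 : F 0 ∈ G := Ideal.subset_span ⟨0, rfl⟩
      rw [dm_eq_add (G ^ (μ + 1) ⊔ Λ) (F 0)]
      have h1 : dm (cln (G ^ (μ + 1) ⊔ Λ) (F 0)) ≤ dm (G ^ μ ⊔ Λ) := by
        refine dm_anti (sup_le ?_ ?_)
        · intro r hr
          rw [mem_cln, pow_succ]
          exact Ideal.mem_sup_left (Ideal.mul_mem_mul hr hF0)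
        · intro r hr
          rw [mem_cln]
          exact Ideal.mem_sup_right (Ideal.mul_mem_right _ _ hr)
      have h2 : dm (G ^ (μ + 1) ⊔ Λ ⊔ span {F 0}) ≤
          dm (span (Set.range F') ^ (μ + 1) ⊔ (Λ ⊔ span {F 0})) := by
        refine dm_anti ?_
        rw [sup_assoc]
        refine sup_le_sup_right (Ideal.pow_right_mono ?_ _) _
        rw [hGF]
        exact le_sup_right
      have h3 : span (Set.range F') ⊔ (Λ ⊔ span {F 0}) = G ⊔ Λ := by
        rw [hGF, sup_comm Λ, ← sup_assoc, sup_comm (span (Set.range F'))]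
      have h4 := iha (μ + 1) (Λ ⊔ span {F 0}) F'
      rw [h3] at h4
      have h5 := ihμ Λ F
      rw [← hG] at h5
      refine (add_le_add (h1.trans h5) (h2.trans h4)).trans (le_of_eq ?_)
      rw [← add_mul]
      congr 1
      have e1 : μ + (a + 1) - 1 = μ + a := by omega
      have e2 : μ + 1 + a - 1 = μ + a := by omega
      have e3 : μ + 1 + (a + 1) - 1 = μ + a + 1 := by omega
      rw [e1, e2, e3, Nat.choose_succ_succ]
      push_cast
      ring

/-- From elements to multiplicities. -/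
lemma limit_le (a n D : ℕ) (hn : 1 ≤ n) (I Λ : Ideal R) (F : Fin a → R)
    (hF : ∀ j, F j ∈ I ^ n) (hD : dm (span (Set.range F) ⊔ Λ) ≤ D) (e : ℝ)
    (he : Filter.Tendsto (fun ν : ℕ => ((Nat.factorial a : ℝ) * ((dm (I ^ ν ⊔ Λ)).toNat : ℝ)) /
      (ν : ℝ) ^ a) Filter.atTop (nhds e)) :
    e * (n : ℝ) ^ a ≤ D := by
  have hsub : Filter.Tendsto (fun μ : ℕ => n * μ) Filter.atTop Filter.atTop :=
    Filter.tendsto_id.const_mul_atTop' (by omega)
  have h1 := (he.comp hsub).mul_const ((n : ℝ) ^ a)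
  have h2 : Filter.Tendsto (fun μ : ℕ => (D : ℝ) * (((μ : ℝ) + a) / μ) ^ a) Filter.atTop
      (nhds ((D : ℝ) * 1 ^ a)) := by
    refine Filter.Tendsto.const_mul _ (Filter.Tendsto.pow ?_ a)
    have h3 : Filter.Tendsto (fun μ : ℕ => (1 : ℝ) + (a : ℝ) / μ) Filter.atTop (nhds (1 + 0)) :=
      tendsto_const_nhds.add (tendsto_const_div_atTop_nhds_zero_nat (a : ℝ))
    rw [add_zero] at h3
    refine h3.congr' ?_
    filter_upwards [Filter.eventually_gt_atTop 0] with μ hμ
    have : (μ : ℝ) ≠ 0 := by positivity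
    field_simp
  rw [one_pow, mul_one] at h2
  refine le_of_tendsto_of_tendsto h1 h2 ?_
  filter_upwards [Filter.eventually_gt_atTop 0] with μ hμ
  have h4 : dm (I ^ (n * μ) ⊔ Λ) ≤ (((μ + a - 1).choose a * D : ℕ) : ℕ∞) := by
    have e1 : span (Set.range F) ^ μ ⊔ Λ ≤ I ^ (n * μ) ⊔ Λ := by
      refine sup_le_sup_right ?_ _
      rw [pow_mul]
      refine Ideal.pow_right_mono ?_ μ
      rw [Ideal.span_le]
      rintro _ ⟨j, rfl⟩
      exact hF j
    refine (dm_anti e1).trans ((dm_pow_bound a μ Λ F).trans ?_)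
    push_cast
    exact mul_le_mul_right hD _
  have h5 : (dm (I ^ (n * μ) ⊔ Λ)).toNat ≤ (μ + a - 1).choose a * D :=
    ENat.toNat_le_of_le_natCast h4
  have h6 : Nat.factorial a * (μ + a - 1).choose a ≤ (μ + a) ^ a := by
    rw [← Nat.descFactorial_eq_factorial_mul_choose]
    exact (Nat.descFactorial_le_pow _ _).trans (Nat.pow_le_pow_left (by omega) _)
  have hμ0 : (0 : ℝ) < μ := by exact_mod_cast hμ
  have hn0 : (0 : ℝ) < n := by exact_mod_cast hn
  show (Nat.factorial a : ℝ) * ((dm (I ^ (n * μ) ⊔ Λ)).toNat : ℝ) / ((n * μ : ℕ) : ℝ) ^ a *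
    (n : ℝ) ^ a ≤ (D : ℝ) * (((μ : ℝ) + a) / μ) ^ a
  have h7 : (Nat.factorial a : ℝ) * ((dm (I ^ (n * μ) ⊔ Λ)).toNat : ℝ) ≤
      ((μ : ℝ) + a) ^ a * D := by
    have h8 : Nat.factorial a * (dm (I ^ (n * μ) ⊔ Λ)).toNat ≤ (μ + a) ^ a * D := by
      calc _ ≤ Nat.factorial a * ((μ + a - 1).choose a * D) := Nat.mul_le_mul_left _ h5
        _ = (Nat.factorial a * (μ + a - 1).choose a) * D := by ring
        _ ≤ _ := Nat.mul_le_mul_right _ h6
    exact_mod_cast h8
  rw [Nat.cast_mul, mul_pow, div_pow, mul_div_assoc', div_mul_eq_mul_div,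
    div_le_div_iff₀ (by positivity) (by positivity)]
  have h9 : (0 : ℝ) ≤ (n : ℝ) ^ a * (μ : ℝ) ^ a := by positivity
  calc _ = ((Nat.factorial a : ℝ) * ((dm (I ^ (n * μ) ⊔ Λ)).toNat : ℝ)) *
        ((n : ℝ) ^ a * (μ : ℝ) ^ a) := by ring
    _ ≤ (((μ : ℝ) + a) ^ a * D) * ((n : ℝ) ^ a * (μ : ℝ) ^ a) :=
        mul_le_mul_of_nonneg_right h7 h9
    _ = _ := by ring

end general

section powerSeries

variable {k : Type*} [Field k] {n : ℕ}

lemma mem_span_X_of_constantCoeff {f : MvPowerSeries (Fin n) k}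
    (hf : MvPowerSeries.constantCoeff f = 0) :
    f ∈ span (Set.range (MvPowerSeries.X : Fin n → MvPowerSeries (Fin n) k)) := by
  classical
  let g : Fin n → MvPowerSeries (Fin n) k := fun i m =>
    if m i ≠ 0 ∧ ∀ j < i, m j = 0 then MvPowerSeries.coeff m f else 0
  have hg : f = ∑ i, g i := by
    ext m
    rw [map_sum]
    have hc : ∀ i, MvPowerSeries.coeff m (g i) =
        if m i ≠ 0 ∧ ∀ j < i, m j = 0 then MvPowerSeries.coeff m f else 0 := fun i => rfl
    simp only [hc]
    by_cases hm : m = 0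
    · subst hm
      simp only [Finsupp.coe_zero, Pi.zero_apply, ne_eq, not_true_eq_false, false_and, if_false,
        Finset.sum_const_zero]
      exact hf
    · have hex : ∃ i, m i ≠ 0 := by
        by_contra hcon
        push Not at hcon
        exact hm (Finsupp.ext hcon)
      have hne : (Finset.univ.filter fun i => m i ≠ 0).Nonempty := by
        obtain ⟨i, hi⟩ := hex
        exact ⟨i, by simp [hi]⟩
      let i0 := (Finset.univ.filter fun i => m i ≠ 0).min' hne
      have hi0 : m i0 ≠ 0 := by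
        have := Finset.min'_mem _ hne
        simpa using this
      have hlt : ∀ j < i0, m j = 0 := by
        intro j hj
        by_contra hcon
        have := Finset.min'_le (Finset.univ.filter fun i => m i ≠ 0) j (by simp [hcon])
        exact absurd hj (not_lt.2 this)
      rw [Finset.sum_eq_single i0]
      · rw [if_pos ⟨hi0, hlt⟩]
      · intro i _ hi
        rw [if_neg]
        rintro ⟨h1, h2⟩
        rcases lt_trichotomy i i0 with h | h | h
        · exact h1 (hlt i h)
        · exact hi h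
        · exact hi0 (h2 i0 h)
      · intro h
        exact absurd (Finset.mem_univ _) h
  rw [hg]
  refine Ideal.sum_mem _ fun i _ => ?_
  have : MvPowerSeries.X i ∣ g i := by
    rw [MvPowerSeries.X_dvd_iff]
    intro m hm
    show (if m i ≠ 0 ∧ ∀ j < i, m j = 0 then MvPowerSeries.coeff m f else 0) = 0
    rw [if_neg]
    rintro ⟨h1, _⟩
    exact h1 hm
  obtain ⟨h, hh⟩ := this
  rw [hh]
  exact Ideal.mul_mem_right _ _ (Ideal.subset_span ⟨i, rfl⟩)

lemma maximalIdeal_eq : maximalIdeal (MvPowerSeries (Fin n) k) =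
    span (Set.range (MvPowerSeries.X : Fin n → MvPowerSeries (Fin n) k)) := by
  apply le_antisymm
  · intro f hf
    apply mem_span_X_of_constantCoeff
    rw [mem_maximalIdeal, mem_nonunits_iff, MvPowerSeries.isUnit_iff_constantCoeff] at hf
    simpa using hf
  · rw [Ideal.span_le]
    rintro _ ⟨i, rfl⟩
    show _ ∈ maximalIdeal _
    rw [mem_maximalIdeal, mem_nonunits_iff, MvPowerSeries.isUnit_iff_constantCoeff]
    simp

lemma residue_cond : ∀ r : MvPowerSeries (Fin n) k, ∃ c : k,
    r - algebraMap k (MvPowerSeries (Fin n) k) c ∈ maximalIdeal (MvPowerSeries (Fin n) k) := by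
  intro r
  refine ⟨MvPowerSeries.constantCoeff r, ?_⟩
  rw [maximalIdeal_eq]
  apply mem_span_X_of_constantCoeff
  rw [map_sub]
  simp [MvPowerSeries.algebraMap_apply]

end powerSeries

end Run7.h445.Lech
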