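import Mathlib
import Pool.Agent.Run7.h445.Lech.Final

set_option autoImplicit false
set_option linter.unusedSectionVars false

namespace Run7.h445.Lech

open Ideal IsLocalRing Multiset

variable {k : Type} [Field k] [Infinite k]

/-- the slot of linear forms -/
noncomputable def LL (k : Type) [Field k] (d : ℕ) :
    Submodule k (MvPowerSeries (Fin (d + 1)) k) :=
  Submodule.span k (Set.range (MvPowerSeries.X : Fin (d + 1) → MvPowerSeries (Fin (d + 1)) k))

lemma LL_le (d : ℕ) : ∀ f ∈ LL k d, f ∈ maximalIdeal (MvPowerSeries (Fin (d + 1)) k) := by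
  intro f hf
  have h : LL k d ≤ sl k (maximalIdeal (MvPowerSeries (Fin (d + 1)) k)) := by
    unfold LL
    rw [Submodule.span_le]
    rintro _ ⟨i, rfl⟩
    show _ ∈ maximalIdeal _
    rw [maximalIdeal_eq]
    exact Ideal.subset_span ⟨i, rfl⟩
  exact h hf

/-- the ideal of the first `i` linear forms -/
noncomputable def lin (d : ℕ) (c : Fin d → Fin (d + 1) → k) (i : ℕ) :
    Ideal (MvPowerSeries (Fin (d + 1)) k) :=
  Ideal.span {f : MvPowerSeries (Fin (d+1)) k |
    ∃ j : Fin d, j.val < i ∧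
      f = ∑ t : Fin (d+1), c j t • (MvPowerSeries.X t : MvPowerSeries (Fin (d+1)) k)}

/-- for general linear forms the multiplicity is at most the mixed colength -/
theorem term_bound (d : ℕ) (I : Ideal (MvPowerSeries (Fin (d + 1)) k)) (n : ℕ) (hn : 1 ≤ n)
    (i : Fin d) (D : ℕ)
    (hD : E ⊥ (replicate (d + 1 - i.val) (sl k (I ^ n)) + replicate i.val (LL k d)) = D) :
    ∃ P : MvPolynomial (Fin d × Fin (d + 1)) k, P ≠ 0 ∧
      ∀ c : Fin d → Fin (d + 1) → k, MvPolynomial.eval (fun p => c p.1 p.2) P ≠ 0 →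
        ∀ e : ℝ, Filter.Tendsto (fun ν : ℕ => ((Nat.factorial (d + 1 - i.val) : ℝ) *
            ((dm (I ^ ν ⊔ lin d c i.val)).toNat : ℝ)) / (ν : ℝ) ^ (d + 1 - i.val))
            Filter.atTop (nhds e) →
          e * (n : ℝ) ^ (d + 1 - i.val) ≤ D := by
  classical
  obtain ⟨F, hF, hFE⟩ := exists_sel (k := k) (sl k (I ^ n)) (d + 1 - i.val)
    (replicate i.val (LL k d)) ⊥
  rw [hD] at hFE
  obtain ⟨G, hG, hGE⟩ := exists_sel (k := k) (LL k d) i.val 0 (⊥ ⊔ span (Set.range F))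
  rw [add_zero] at hGE
  have hGE2 := hGE.trans hFE
  rw [E_zero, bot_sup_eq] at hGE2
  -- coefficients of the linear forms
  have hco : ∀ j, ∃ α : Fin (d + 1) → k,
      ∑ t, α t • (MvPowerSeries.X t : MvPowerSeries (Fin (d + 1)) k) = G j := by
    intro j
    exact (Submodule.mem_span_range_iff_exists_fun k).1 (hG j)
  choose α hα using hco
  let z0 : Fin d × Fin (d + 1) → k := fun p =>
    if h : p.1.val < i.val then α ⟨p.1.val, h⟩ p.2 else 0
  let up : Fin i.val → Fin d := fun j => ⟨j.val, j.2.trans i.2⟩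
  let f : Fin i.val → (Fin d × Fin (d + 1) → k) → MvPowerSeries (Fin (d + 1)) k :=
    fun j z => ∑ t, z (up j, t) • MvPowerSeries.X t
  have hf : ∀ j, f j ∈ PolyMap k (Fin d × Fin (d + 1)) (MvPowerSeries (Fin (d + 1)) k) := by
    intro j
    refine polyMap_sum _ ?_
    intro t _
    have := polyMap_basic (k := k) (MvPolynomial.X (up j, t))
      (MvPowerSeries.X t : MvPowerSeries (Fin (d + 1)) k)
    simpa using this
  obtain ⟨P, hP0, hP⟩ := semicont k (residue_cond (k := k)) (span (Set.range F)) f hf z0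
  have hz0 : Set.range (fun j => f j z0) = Set.range G := by
    congr 1
    funext j
    rw [← hα j]
    refine Finset.sum_congr rfl fun t _ => ?_
    have h0 : z0 (up j, t) = α j t := dif_pos j.2
    rw [h0]
  rw [hz0] at hP
  refine ⟨P, ne_zero_of_eval hP0, ?_⟩
  intro c hc e he
  have h1 := hP _ hc
  have h2 : span (Set.range fun j => f j (fun p => c p.1 p.2)) = lin d c i.val := by
    unfold lin
    congr 1
    ext g
    constructor
    · rintro ⟨j, rfl⟩
      exact ⟨up j, j.2, rfl⟩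
    · rintro ⟨j, hj, rfl⟩
      exact ⟨⟨j.val, hj⟩, rfl⟩
  rw [h2] at h1
  exact limit_le (d + 1 - i.val) n D hn I (lin d c i.val) F hF (h1.trans hGE2) e he

theorem answer (d : ℕ) (I : Ideal (MvPowerSeries (Fin (d + 1)) k))
    (hI : I.radical = Ideal.span (Set.range
      (MvPowerSeries.X : Fin (d + 1) → MvPowerSeries (Fin (d + 1)) k))) :
    ∃ P : MvPolynomial (Fin d × Fin (d + 1)) k, P ≠ 0 ∧
      ∀ c : Fin d → Fin (d + 1) → k, MvPolynomial.eval (fun p => c p.1 p.2) P ≠ 0 →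
        ∀ e : Fin d → ℝ,
          (∀ i : Fin d, Filter.Tendsto
            (fun ν : ℕ => ((Nat.factorial (d + 1 - i.val) : ℝ) *
              ((dm (I ^ ν ⊔ lin d c i.val)).toNat : ℝ)) / (ν : ℝ) ^ (d + 1 - i.val))
            Filter.atTop (nhds (e i))) →
          ∑ i : Fin d, ((ascPochhammer ℕ (d + 1)).coeff (d + 1 - i.val) : ℝ) * e i
            ≤ (Nat.factorial (d + 1) : ℝ) * ((dm I).toNat : ℝ) := by
  classical
  have hmax : I.radical = maximalIdeal (MvPowerSeries (Fin (d + 1)) k) := by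
    rw [hI, maximalIdeal_eq]
  have hItop : I ≠ ⊤ := by
    intro h
    rw [h, Ideal.radical_top] at hmax
    exact (maximalIdeal.isMaximal (MvPowerSeries (Fin (d + 1)) k)).ne_top hmax.symm
  obtain ⟨T, hT⟩ := Ideal.exists_radical_pow_le_of_fg I (IsNoetherian.noetherian _)
  rw [hmax] at hT
  obtain ⟨n, hn, hLam⟩ := main (residue_cond (k := k)) (LL k d) (LL_le d) (d + 1) ⊥ I
    MvPowerSeries.X (fun j => Submodule.subset_span ⟨j, rfl⟩)
    (by rw [bot_sup_eq, maximalIdeal_eq]) bot_le hItop ⟨T, hT⟩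
  have hdm : dm I ≠ ⊤ := dm_ne_top_of_pow_le hT
  obtain ⟨N, hN⟩ := ENat.ne_top_iff_exists.1 hdm
  set s : Fin d → ℕ := fun i => (ascPochhammer ℕ (d + 1)).coeff (d + 1 - i.val) with hs
  let Ei : Fin d → ℕ∞ := fun i =>
    E ⊥ (replicate (d + 1 - i.val) (sl k (I ^ n)) + replicate i.val (LL k d))
  -- partial sum bounded by the full one
  have hsum : ∑ i : Fin d, (s i : ℕ∞) * ((n : ℕ∞) ^ i.val * Ei i) ≤
      (n : ℕ∞) ^ (d + 1) * ((d + 1).factorial * N) := by
    rw [hN]
    refine le_trans ?_ hLam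
    unfold Lam
    rw [Phi_eq_sum _ _ (d + 2) (by rw [ascPochhammer_natDegree]; omega)]
    let g : ℕ → ℕ∞ := fun b => (((ascPochhammer ℕ (d + 1)).coeff b : ℕ) : ℕ∞) *
      ((n : ℕ∞) ^ (d + 1 - b) *
        E ⊥ (replicate b (sl k (I ^ n)) + replicate (d + 1 - b) (LL k d)))
    have h1 : ∀ i : Fin d, (s i : ℕ∞) * ((n : ℕ∞) ^ i.val * Ei i) = g (d + 1 - i.val) := by
      intro i
      have : d + 1 - (d + 1 - i.val) = i.val := by omega
      simp only [g, this, hs, Ei]
    have h2 : ∑ i : Fin d, g (d + 1 - i.val) =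
        ∑ b ∈ Finset.univ.image (fun i : Fin d => d + 1 - i.val), g b := by
      rw [Finset.sum_image]
      intro i _ j _ hij
      have : d + 1 - i.val = d + 1 - j.val := hij
      ext
      omega
    rw [Finset.sum_congr rfl fun i _ => h1 i, h2]
    refine Finset.sum_le_sum_of_subset ?_
    intro b hb
    obtain ⟨i, _, rfl⟩ := Finset.mem_image.1 hb
    rw [Finset.mem_range]
    omega
  have hfin : ∀ i, s i ≠ 0 → Ei i ≠ ⊤ := by
    intro i hi htop
    have h1 : (s i : ℕ∞) * ((n : ℕ∞) ^ i.val * Ei i) ≤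
        (n : ℕ∞) ^ (d + 1) * ((d + 1).factorial * N) :=
      le_trans (Finset.single_le_sum (f := fun i : Fin d =>
        (s i : ℕ∞) * ((n : ℕ∞) ^ i.val * Ei i)) (fun _ _ => bot_le) (Finset.mem_univ i)) hsum
    rw [htop, ENat.mul_top (pow_ne_zero _ (by simp; omega)), ENat.mul_top (by simpa using hi)] at h1
    have h2 : (n : ℕ∞) ^ (d + 1) * ((d + 1).factorial * N) =
      ((n ^ (d + 1) * ((d + 1).factorial * N) : ℕ) : ℕ∞) := by push_cast; rfl
    rw [h2] at h1
    exact absurd (top_le_iff.1 h1) (ENat.natCast_ne_top _)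
  let D : Fin d → ℕ := fun i => (Ei i).toNat
  have hED : ∀ i, s i ≠ 0 → Ei i = D i := fun i hi => (ENat.natCast_toNat (hfin i hi)).symm
  have hnat : ∑ i : Fin d, s i * (n ^ i.val * D i) ≤ n ^ (d + 1) * ((d + 1).factorial * N) := by
    have h1 : ∑ i : Fin d, (s i : ℕ∞) * ((n : ℕ∞) ^ i.val * Ei i) =
        ((∑ i : Fin d, s i * (n ^ i.val * D i) : ℕ) : ℕ∞) := by
      rw [Nat.cast_sum]
      refine Finset.sum_congr rfl fun i _ => ?_
      by_cases hi : s i = 0
      · rw [hi]; simp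
      · rw [hED i hi]; push_cast; rfl
    rw [h1] at hsum
    exact_mod_cast hsum
  -- the open conditions
  have hP : ∀ i : Fin d, ∃ P : MvPolynomial (Fin d × Fin (d + 1)) k, P ≠ 0 ∧
      ∀ c : Fin d → Fin (d + 1) → k, MvPolynomial.eval (fun p => c p.1 p.2) P ≠ 0 →
        ∀ e : ℝ, Filter.Tendsto (fun ν : ℕ => ((Nat.factorial (d + 1 - i.val) : ℝ) *
            ((dm (I ^ ν ⊔ lin d c i.val)).toNat : ℝ)) / (ν : ℝ) ^ (d + 1 - i.val))
            Filter.atTop (nhds e) →
          (s i : ℝ) * e * (n : ℝ) ^ (d + 1) ≤ s i * ((n : ℝ) ^ i.val * D i) := by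
    intro i
    by_cases hi : s i = 0
    · exact ⟨1, one_ne_zero, fun c _ e _ => by rw [hi]; simp⟩
    · obtain ⟨P, hP0, hP⟩ := term_bound d I n hn i (D i) (hED i hi)
      refine ⟨P, hP0, fun c hc e he => ?_⟩
      have h1 := hP c hc e he
      have h2 : (n : ℝ) ^ (d + 1) = (n : ℝ) ^ i.val * (n : ℝ) ^ (d + 1 - i.val) := by
        rw [← pow_add]
        congr 1
        omega
      rw [h2]
      have h3 : (0 : ℝ) ≤ (s i : ℝ) * (n : ℝ) ^ i.val := by positivity
      calc (s i : ℝ) * e * ((n : ℝ) ^ i.val * (n : ℝ) ^ (d + 1 - i.val))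
          = ((s i : ℝ) * (n : ℝ) ^ i.val) * (e * (n : ℝ) ^ (d + 1 - i.val)) := by ring
        _ ≤ ((s i : ℝ) * (n : ℝ) ^ i.val) * D i := mul_le_mul_of_nonneg_left h1 h3
        _ = _ := by ring
  choose P hP0 hP using hP
  refine ⟨∏ i, P i, Finset.prod_ne_zero_iff.2 fun i _ => hP0 i, ?_⟩
  intro c hc e he
  rw [map_prod] at hc
  have hn0 : (0 : ℝ) < (n : ℝ) ^ (d + 1) := by
    have : (0 : ℝ) < n := by exact_mod_cast hn
    positivity
  refine le_of_mul_le_mul_right ?_ hn0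
  rw [Finset.sum_mul]
  calc ∑ i : Fin d, (s i : ℝ) * e i * (n : ℝ) ^ (d + 1)
      ≤ ∑ i : Fin d, (s i : ℝ) * ((n : ℝ) ^ i.val * D i) :=
        Finset.sum_le_sum fun i _ =>
          hP i c (Finset.prod_ne_zero_iff.1 hc i (Finset.mem_univ i)) (e i) (he i)
    _ ≤ (n : ℝ) ^ (d + 1) * ((d + 1).factorial * N) := by exact_mod_cast hnat
    _ = _ := by
        rw [← hN]
        simp only [ENat.toNat_natCast]
        ring

end Run7.h445.Lech
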